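import Pool.Agent.H76.CZ.Stm
import Pool.Agent.H64.CX.UN

set_option autoImplicit false

/-! # CZ-U2: the coefficients at `α = -1/2` (helper48) -/

namespace Pool.Agent.H76.CZ

open Set Filter Topology MeasureTheory
open scoped ENNReal
open Pool.Agent.H64.CX

namespace U2aux

/-- the coefficients as real numbers -/
noncomputable def v (n : ℕ) : ℝ := ∏ i ∈ Finset.range n, ((3 / 2 + (i : ℝ)) / ((i : ℝ) + 1))

theorem v_zero : v 0 = 1 := by
  unfold v
  simp

theorem v_succ (n : ℕ) : v (n + 1) = v n * ((3 / 2 + (n : ℝ)) / ((n : ℝ) + 1)) := by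
  unfold v
  rw [Finset.prod_range_succ]

theorem v_pos (n : ℕ) : 0 < v n := by
  unfold v
  exact Finset.prod_pos fun i _ => by positivity

theorem bt_v (n : ℕ) : bt (1 - (-(1 / 2))) n = ((v n : ℝ) : ℂ) := by
  unfold bt v
  push_cast
  refine Finset.prod_congr rfl fun i _ => ?_
  congr 1
  ring

theorem bt_m (n : ℕ) : bt (-(1 / 2)) (n + 1) =
    ((-(v n) / (2 * ((n : ℝ) + 1) * (2 * n + 1)) : ℝ) : ℂ) := by
  induction n with
  | zero =>
    rw [v_zero]
    unfold bt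
    simp
    ring
  | succ n ih =>
    have e : bt (-(1 / 2)) (n + 1 + 1) = bt (-(1 / 2)) (n + 1) *
        ((((-(1 / 2) + ((n : ℝ) + 1)) / (((n : ℝ) + 1) + 1) : ℝ)) : ℂ) := by
      unfold bt
      rw [Finset.prod_range_succ]
      push_cast
      rfl
    rw [e, ih, ← Complex.ofReal_mul]
    congr 1
    rw [v_succ]
    have h1 : (n : ℝ) + 1 ≠ 0 := by positivity
    have h2 : 2 * (n : ℝ) + 1 ≠ 0 := by positivity
    have h3 : (n : ℝ) + 1 + 1 ≠ 0 := by positivity
    have h4 : 2 * ((n : ℝ) + 1) + 1 ≠ 0 := by positivity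
    push_cast
    field_simp
    ring

/-- the normalized square -/
noncomputable def w (n : ℕ) : ℝ := v n ^ 2 / ((n : ℝ) + 1)

theorem w_mono : Monotone w := by
  refine monotone_nat_of_le_succ fun n => ?_
  unfold w
  rw [v_succ, mul_pow, div_pow]
  have h0 : 0 < v n ^ 2 := pow_pos (v_pos n) 2
  push_cast
  rw [mul_div_assoc, div_eq_mul_inv (v n ^ 2)]
  refine mul_le_mul_of_nonneg_left ?_ h0.le
  rw [div_div, inv_eq_one_div, div_le_div_iff₀ (by positivity) (by positivity)]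
  have hn : (0 : ℝ) ≤ n := Nat.cast_nonneg n
  nlinarith [mul_nonneg hn hn, mul_nonneg hn (mul_nonneg hn hn)]

theorem w_zero : w 0 = 1 := by
  unfold w
  rw [v_zero]
  norm_num

theorem gam_val : ‖Complex.Gamma (1 - (-(1 / 2)))‖ ^ 2 = Real.pi / 4 := by
  have h1 : (1 : ℂ) - (-(1 / 2)) = (((1 / 2 + 1 : ℝ)) : ℂ) := by
    push_cast
    ring
  rw [h1, Complex.Gamma_ofReal, Real.Gamma_add_one (by norm_num), Real.Gamma_one_half_eq,
    Complex.norm_real, Real.norm_eq_abs, sq_abs, mul_pow, Real.sq_sqrt Real.pi_pos.le]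
  ring

theorem w_lim : Tendsto w atTop (𝓝 (4 / Real.pi)) := by
  have h := (un (-(1 / 2)) (by simp) (by simp)).2
  rw [gam_val] at h
  have h1 : (1 : ℝ) / (Real.pi / 4) = 4 / Real.pi := by
    have := Real.pi_pos
    field_simp
  rw [h1] at h
  have h2 : Tendsto (fun n : ℕ => (n : ℝ) / ((n : ℝ) + 1)) atTop (𝓝 1) :=
    tendsto_natCast_div_add_atTop (1 : ℝ)
  have h3 := h.mul h2
  rw [mul_one] at h3
  refine h3.congr' ?_
  filter_upwards [eventually_ge_atTop 1] with n hn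
  have hn0 : (0 : ℝ) < n := by exact_mod_cast hn
  rw [bt_v, Complex.norm_real, Real.norm_eq_abs, sq_abs]
  have h4 : (2 * (-(1 / 2) : ℂ).re) = -1 := by
    simp
  rw [h4, Real.rpow_neg_one]
  unfold w
  field_simp

theorem w_le (n : ℕ) : w n ≤ 4 / Real.pi := w_mono.ge_of_tendsto w_lim n

theorem one_le_w (n : ℕ) : 1 ≤ w n := by
  rw [← w_zero]
  exact w_mono (Nat.zero_le n)

theorem v_low (n : ℕ) : (n : ℝ) + 1 ≤ v n ^ 2 := by
  have h := one_le_w n
  unfold w at h
  rwa [le_div_iff₀ (by positivity), one_mul] at h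

theorem v_up (n : ℕ) : v n ^ 2 ≤ 4 / Real.pi * ((n : ℝ) + 1) := by
  have h := w_le n
  unfold w at h
  rwa [div_le_iff₀ (by positivity)] at h

end U2aux

open U2aux

theorem u2 : S_U2 := by
  constructor
  · intro n hn
    obtain ⟨m, rfl⟩ : ∃ m, n = m + 1 := ⟨n - 1, by omega⟩
    rw [Nat.add_sub_cancel, bt_v, Complex.norm_real, Real.norm_eq_abs, sq_abs]
    push_cast
    exact ⟨v_low m, v_up m⟩
  · intro M hM
    obtain ⟨m, rfl⟩ : ∃ m, M = m + 1 := ⟨M - 1, by omega⟩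
    rw [bt_m, Complex.norm_real, Real.norm_eq_abs, sq_abs]
    have h1 := v_up m
    have hpi := Real.pi_pos
    push_cast
    have h2 : (m : ℝ) + 1 - 1 / 2 = (2 * m + 1) / 2 := by ring
    rw [h2]
    have h3 : (0 : ℝ) < 2 * m + 1 := by positivity
    have h4 : (0 : ℝ) < (m : ℝ) + 1 := by positivity
    have e1 : (-(v m) / (2 * ((m : ℝ) + 1) * (2 * m + 1))) ^ 2 * ((m : ℝ) + 1) ^ 2 =
        v m ^ 2 * (1 / (4 * (2 * m + 1) ^ 2)) := by
      field_simp
      ring
    have e2 : 1 / (4 * Real.pi * ((m : ℝ) + 1)) * (((m : ℝ) + 1) / ((2 * m + 1) / 2)) ^ 2 =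
        (4 / Real.pi * ((m : ℝ) + 1)) * (1 / (4 * (2 * m + 1) ^ 2)) := by
      field_simp
      ring
    rw [e1, e2]
    exact mul_le_mul_of_nonneg_right h1 (by positivity)

end Pool.Agent.H76.CZ
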