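import Pool.Agent.H76.CZ.Stm
import Pool.Agent.H64.CX.ID

set_option autoImplicit false

/-! # CZ-ID2: the one-sided identity -/

namespace Pool.Agent.H76.CZ

open Finset
open Pool.Agent.H64.CX

/-- the partial convolution -/
theorem conv_one (a : ℂ) (ha : ∀ j : ℤ, a ≠ (j : ℂ)) (l n : ℕ) (hn : 1 ≤ n) :
    ∑ b ∈ range (n + 1), bt (-a) (n - b) * (if b = 0 then 0 else bt a (n + l - b)) =
      bt a (n + l) * (((n : ℂ) + l) * bt (1 - a) (n - 1) / ((l : ℂ) + a)) := by
  have ha' : ∀ j : ℕ, a ≠ -(j : ℂ) := fun j h => ha (-(j : ℤ)) (by rw [h]; push_cast; ring)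
  have hl : (l : ℂ) + a ≠ 0 := by
    intro h
    exact ha' l (eq_neg_of_add_eq_zero_right h)
  obtain ⟨n, rfl⟩ : ∃ n', n = n' + 1 := ⟨n - 1, by omega⟩
  have h1 := conv_G a ha' l (n + 1)
  rw [Finset.sum_range_succ'] at h1 ⊢
  have e1 : ∀ b ∈ range (n + 1), bt (-a) (n + 1 - (b + 1)) *
      (if b + 1 = 0 then (0 : ℂ) else bt a (n + 1 + l - (b + 1))) =
      bt (-a) (n + 1 - (b + 1)) * bt a (n + 1 + l - (b + 1)) := by
    intro b _
    rw [if_neg (Nat.succ_ne_zero b)]
  rw [Finset.sum_congr rfl e1, if_pos rfl, mul_zero, add_zero, eq_sub_of_add_eq h1, Nat.sub_zero,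
    Nat.sub_zero, bt_shift' (-a) n, bt_succ' (1 - a) n, Nat.add_sub_cancel,
    show -a + 1 = 1 - a by ring]
  have hn0 : (n : ℂ) + 1 ≠ 0 := by exact_mod_cast Nat.succ_ne_zero n
  push_cast
  field_simp
  ring

theorem id2 : S_ID2 := by
  intro a ν hν ha m k hm hk
  -- symmetry
  have f2 : TN a ν k m = ∑ b ∈ range (m + 1), ν (m - b) b * bt a (m + k - b) := by
    unfold TN
    rw [← Finset.sum_range_reflect]
    refine Finset.sum_congr rfl fun b hb => ?_
    rw [Finset.mem_range] at hb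
    rw [show m + 1 - 1 - b = m - b by omega, show m - (m - b) = b by omega, hν b (m - b),
      show m - b + k = m + k - b by omega]
  have hP : TP a ν m m = ν m 0 := by
    unfold TP
    rw [show Ico m (m + 1) = {m} by ext x; simp only [mem_Ico, mem_singleton]; omega,
      Finset.sum_singleton, Nat.sub_self, bt_zero', mul_one, hν]
  have f3 : ∑ b ∈ range (m + 1), ν (m - b) b * bt a (m + k - b) = ν m 0 * bt a (m + k) +
      ∑ b ∈ range (m + 1), ν (m - b) b * (if b = 0 then 0 else bt a (m + k - b)) := by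
    rw [Finset.sum_range_succ', Finset.sum_range_succ' _ m, if_pos rfl, mul_zero, add_zero,
      Nat.sub_zero, Nat.sub_zero, add_comm]
    congr 1
  rw [f2, f3, insert_T a ν m (fun b => if b = 0 then 0 else bt a (m + k - b)),
    Finset.sum_range_succ']
  have h0 : TP a ν 0 m * ∑ b ∈ range (0 + 1), bt (-a) (0 - b) *
      (if b = 0 then (0 : ℂ) else bt a (m + k - b)) = 0 := by simp
  rw [h0, add_zero, hP, mul_add, mul_comm (ν m 0)]
  congr 1
  have e9 : Icc 1 m = Ico 1 (m + 1) := by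
    ext x
    simp only [Finset.mem_Icc, Finset.mem_Ico]
    omega
  rw [e9, Finset.sum_Ico_eq_sum_range, Nat.add_sub_cancel, Finset.mul_sum]
  refine Finset.sum_congr rfl fun n hn => ?_
  rw [Finset.mem_range] at hn
  rw [add_comm 1 n]
  have h5 := conv_one a ha (m + k - (n + 1)) (n + 1) (by omega)
  rw [show n + 1 + (m + k - (n + 1)) = m + k by omega] at h5
  rw [h5]
  have h6 : ((m + k - (n + 1) : ℕ) : ℂ) = (m : ℂ) + k - ((n + 1 : ℕ) : ℂ) := by
    rw [Nat.cast_sub (by omega)]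
    push_cast
    ring
  rw [h6, show ((n + 1 : ℕ) : ℂ) + ((m : ℂ) + k - ((n + 1 : ℕ) : ℂ)) = (m : ℂ) + k by ring]
  ring

end Pool.Agent.H76.CZ
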