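import Pool.Agent.H76.CZ.Stm

set_option autoImplicit false

/-! # CZ-INT: the limit integral, reduced to PHI -/

namespace Pool.Agent.H76.CZ

open Set Filter Topology MeasureTheory
open scoped ENNReal

namespace INT

theorem intB (σ x : ℝ) (hσ0 : 0 < σ) (hx : 0 < x) :
    IntervalIntegrable (fun t : ℝ => (1 + x) ^ (-σ) * t ^ (σ - 1) / (x + t)) volume 0 1 := by
  have h1 : IntervalIntegrable (fun t : ℝ => t ^ (σ - 1)) volume 0 1 :=
    intervalIntegral.intervalIntegrable_rpow' (by linarith)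
  have h2 : ContinuousOn (fun t : ℝ => (1 + x) ^ (-σ) / (x + t)) (uIcc (0 : ℝ) 1) := by
    refine continuousOn_const.div (by fun_prop) fun t ht => ?_
    rw [uIcc_of_le zero_le_one] at ht
    have := ht.1
    positivity
  refine (h1.mul_continuousOn h2).congr ?_
  intro t _
  show t ^ (σ - 1) * ((1 + x) ^ (-σ) / (x + t)) = (1 + x) ^ (-σ) * t ^ (σ - 1) / (x + t)
  ring

theorem intA (σ x : ℝ) (hσ0 : 0 < σ) (hx : 0 < x) :
    IntervalIntegrable (fun t : ℝ => x * (1 + x) ^ (-σ) * t ^ (σ - 1) / (x + t) ^ 2)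
      volume 0 1 := by
  have h1 : IntervalIntegrable (fun t : ℝ => t ^ (σ - 1)) volume 0 1 :=
    intervalIntegral.intervalIntegrable_rpow' (by linarith)
  have h2 : ContinuousOn (fun t : ℝ => x * (1 + x) ^ (-σ) / (x + t) ^ 2) (uIcc (0 : ℝ) 1) := by
    refine continuousOn_const.div (by fun_prop) fun t ht => ?_
    rw [uIcc_of_le zero_le_one] at ht
    have := ht.1
    positivity
  refine (h1.mul_continuousOn h2).congr ?_
  intro t _
  show t ^ (σ - 1) * (x * (1 + x) ^ (-σ) / (x + t) ^ 2) =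
    x * (1 + x) ^ (-σ) * t ^ (σ - 1) / (x + t) ^ 2
  ring

theorem real_id (σ x : ℝ) (hσ0 : 0 < σ) (hx : 0 < x) :
    ∫ t in (0 : ℝ)..1, x * (1 + x) ^ (-σ) * t ^ (σ - 1) / (x + t) ^ 2 =
      (1 + x) ^ (-σ - 1) + (1 - σ) * ∫ t in (0 : ℝ)..1, (1 + x) ^ (-σ) * t ^ (σ - 1) / (x + t) := by
  have hx1 : 0 < 1 + x := by linarith
  have key := intervalIntegral.integral_eq_sub_of_hasDerivAt_of_le (a := 0) (b := 1)
    (f := fun t : ℝ => (1 + x) ^ (-σ) * (t ^ σ / (x + t)))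
    (f' := fun t : ℝ => x * (1 + x) ^ (-σ) * t ^ (σ - 1) / (x + t) ^ 2 -
      (1 - σ) * ((1 + x) ^ (-σ) * t ^ (σ - 1) / (x + t))) zero_le_one ?_ ?_
    ((intA σ x hσ0 hx).sub ((intB σ x hσ0 hx).const_mul _))
  · rw [intervalIntegral.integral_sub (intA σ x hσ0 hx) ((intB σ x hσ0 hx).const_mul _),
      intervalIntegral.integral_const_mul] at key
    have h1 : (1 + x) ^ (-σ) * ((1 : ℝ) ^ σ / (x + 1)) -
        (1 + x) ^ (-σ) * ((0 : ℝ) ^ σ / (x + 0)) = (1 + x) ^ (-σ - 1) := by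
      rw [Real.one_rpow, Real.zero_rpow hσ0.ne', Real.rpow_sub_one hx1.ne']
      simp only [zero_div, mul_zero, sub_zero]
      rw [add_comm x 1]
      ring
    have h2 : ∀ a b c : ℝ, a - b = c → a = c + b := fun a b c h => by linarith
    exact h2 _ _ _ (key.trans h1)
  · refine continuousOn_const.mul ((ContinuousOn.rpow_const continuousOn_id
      fun t _ => Or.inr hσ0.le).div (by fun_prop) fun t ht => ?_)
    have := ht.1
    show x + t ≠ 0
    positivity
  · intro t ht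
    have ht0 : 0 < t := ht.1
    have hxt : x + t ≠ 0 := by positivity
    have h1 : HasDerivAt (fun t : ℝ => t ^ σ) (σ * t ^ (σ - 1)) t :=
      Real.hasDerivAt_rpow_const (Or.inl ht0.ne')
    have h2 : HasDerivAt (fun t : ℝ => x + t) 1 t := by
      simpa using (hasDerivAt_id t).const_add x
    have h3 := (h1.div h2 hxt).const_mul ((1 + x) ^ (-σ))
    refine h3.congr_deriv ?_
    have h4 : t ^ σ = t * t ^ (σ - 1) := by
      rw [Real.rpow_sub_one ht0.ne']; field_simp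
    rw [h4]
    field_simp
    ring

theorem inner (σ x : ℝ) (hσ0 : 0 < σ) (hσ1 : σ < 1) (hx : 0 < x) :
    ∫⁻ t in Ioo (0 : ℝ) 1, ENNReal.ofReal (x * (1 + x) ^ (-σ) * t ^ (σ - 1) / (x + t) ^ 2) =
      ENNReal.ofReal ((1 + x) ^ (-σ - 1)) + ENNReal.ofReal (1 - σ) *
        ∫⁻ t in Ioo (0 : ℝ) 1, ENNReal.ofReal ((1 + x) ^ (-σ) * t ^ (σ - 1) / (x + t)) := by
  have hA := (intervalIntegrable_iff_integrableOn_Ioo_of_le zero_le_one).1 (intA σ x hσ0 hx)
  have hB := (intervalIntegrable_iff_integrableOn_Ioo_of_le zero_le_one).1 (intB σ x hσ0 hx)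
  have h1x : 0 < 1 + x := by linarith
  have nA : 0 ≤ᵐ[volume.restrict (Ioo (0 : ℝ) 1)]
      (fun t : ℝ => x * (1 + x) ^ (-σ) * t ^ (σ - 1) / (x + t) ^ 2) := by
    filter_upwards [ae_restrict_mem measurableSet_Ioo] with t ht
    have := ht.1
    show 0 ≤ x * (1 + x) ^ (-σ) * t ^ (σ - 1) / (x + t) ^ 2
    positivity
  have nB : 0 ≤ᵐ[volume.restrict (Ioo (0 : ℝ) 1)]
      (fun t : ℝ => (1 + x) ^ (-σ) * t ^ (σ - 1) / (x + t)) := by
    filter_upwards [ae_restrict_mem measurableSet_Ioo] with t ht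
    have := ht.1
    show 0 ≤ (1 + x) ^ (-σ) * t ^ (σ - 1) / (x + t)
    positivity
  rw [← ofReal_integral_eq_lintegral_ofReal hA nA, ← ofReal_integral_eq_lintegral_ofReal hB nB,
    ← ENNReal.ofReal_mul (by linarith), ← ENNReal.ofReal_add (by positivity)
      (mul_nonneg (by linarith) (integral_nonneg_of_ae nB))]
  congr 1
  have h := real_id σ x hσ0 hx
  rwa [intervalIntegral.integral_of_le zero_le_one, intervalIntegral.integral_of_le zero_le_one,
    integral_Ioc_eq_integral_Ioo, integral_Ioc_eq_integral_Ioo] at h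

theorem tail (σ : ℝ) (hσ0 : 0 < σ) :
    ∫⁻ x in Ioi (0 : ℝ), ENNReal.ofReal ((1 + x) ^ (-σ - 1)) = ENNReal.ofReal (1 / σ) := by
  have hd : ∀ x ∈ Ioi (0 : ℝ), HasDerivAt (fun x : ℝ => -((1 + x) ^ (-σ) / σ))
      ((1 + x) ^ (-σ - 1)) x := by
    intro x hx
    have hx' : (0 : ℝ) < x := hx
    have h1x : 1 + x ≠ 0 := by positivity
    have h2 : HasDerivAt (fun x : ℝ => 1 + x) 1 x := by
      simpa using (hasDerivAt_id x).const_add 1
    have h3 := ((h2.rpow_const (p := -σ) (Or.inl h1x)).div_const σ).neg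
    refine h3.congr_deriv ?_
    field_simp
  have hc : ContinuousWithinAt (fun x : ℝ => -((1 + x) ^ (-σ) / σ)) (Ici 0) 0 := by
    have : ContinuousAt (fun x : ℝ => -((1 + x) ^ (-σ) / σ)) 0 := by
      have h1 : ContinuousAt (fun x : ℝ => (1 + x) ^ (-σ)) 0 :=
        ContinuousAt.rpow_const (by fun_prop) (Or.inl (by norm_num))
      exact (h1.div_const σ).neg
    exact this.continuousWithinAt
  have hl : Tendsto (fun x : ℝ => -((1 + x) ^ (-σ) / σ)) atTop (𝓝 0) := by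
    have h1 : Tendsto (fun x : ℝ => 1 + x) atTop atTop := tendsto_atTop_add_const_left _ _ tendsto_id
    have h2 := ((tendsto_rpow_neg_atTop hσ0).comp h1).div_const σ
    simpa using h2.neg
  have hn : ∀ x ∈ Ioi (0 : ℝ), 0 ≤ (1 + x) ^ (-σ - 1) := by
    intro x hx
    have hx' : (0 : ℝ) < x := hx
    positivity
  have hi := integrableOn_Ioi_deriv_of_nonneg hc hd hn hl
  have hv := integral_Ioi_of_hasDerivAt_of_nonneg hc hd hn hl
  rw [← ofReal_integral_eq_lintegral_ofReal hi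
    ((ae_restrict_mem measurableSet_Ioi).mono fun x hx => hn x hx), hv]
  congr 1
  simp

end INT

open INT in
theorem int : S_INT := by
  intro hPHI σ hσ0 hσ1
  unfold II
  have h1 : ∫⁻ x in Ioi (0 : ℝ), ∫⁻ t in Ioo (0 : ℝ) 1,
      ENNReal.ofReal (x * (1 + x) ^ (-σ) * t ^ (σ - 1) / (x + t) ^ 2) =
      ∫⁻ x in Ioi (0 : ℝ), (ENNReal.ofReal ((1 + x) ^ (-σ - 1)) + ENNReal.ofReal (1 - σ) *
        ∫⁻ t in Ioo (0 : ℝ) 1, ENNReal.ofReal ((1 + x) ^ (-σ) * t ^ (σ - 1) / (x + t))) := by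
    refine setLIntegral_congr_fun measurableSet_Ioi fun x hx => ?_
    exact inner σ x hσ0 hσ1 hx
  have hm : Measurable (fun x : ℝ => ENNReal.ofReal ((1 + x) ^ (-σ - 1))) := by fun_prop
  rw [h1, lintegral_add_left hm, lintegral_const_mul' _ _ ENNReal.ofReal_ne_top, tail σ hσ0,
    ENNReal.ofReal_add (by positivity) (mul_nonneg (by linarith) ?_),
    ENNReal.ofReal_mul (by linarith)]
  · gcongr
    exact hPHI σ hσ0 hσ1
  · have h2 : 1 ≤ 2 / σ ^ 2 := by
      rw [le_div_iff₀ (by positivity)]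
      nlinarith
    have h3 : 0 ≤ σ / (σ + 1 / 2) := by positivity
    linarith

end Pool.Agent.H76.CZ
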