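import Pool.Agent.H76.CZ.Stm
import Pool.Agent.H64.CX.LIM2a

set_option autoImplicit false

/-! # CZ-LIM3: the exact limit of the sums -/

namespace Pool.Agent.H76.CZ

open Set Filter Topology MeasureTheory
open scoped ENNReal
open Pool.Agent.H64.CX

namespace LIM3P

/-- one term of `WW` -/
noncomputable def T3 (σ : ℝ) (m k j : ℕ) : ℝ :=
  ((k + 1 : ℕ) : ℝ) * ((m : ℝ) + ((k + 1 : ℕ) : ℝ) + 1) ^ (-σ) *
    (((j : ℝ) + 1) ^ (σ - 1) / ((((k + 1 : ℕ) : ℝ)) + j - 1 / 2) ^ 2)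

theorem WW_eq (σ : ℝ) (m k : ℕ) : WW σ m (k + 1) = ∑ j ∈ Finset.range m, T3 σ m k j := by
  unfold WW T3
  rw [Finset.mul_sum]

theorem T3_nonneg (σ : ℝ) (m k j : ℕ) : 0 ≤ T3 σ m k j := by
  unfold T3
  positivity

theorem WW_nonneg (σ : ℝ) (m k : ℕ) : 0 ≤ WW σ m (k + 1) := by
  rw [WW_eq]
  exact Finset.sum_nonneg fun j _ => T3_nonneg σ m k j

/-- the step function -/
noncomputable def G3 (σ : ℝ) (m : ℕ) (x s : ℝ) : ℝ≥0∞ :=
  ENNReal.ofReal ((m : ℝ) ^ 2 * T3 σ m ⌊(m : ℝ) * x⌋₊ ⌊(m : ℝ) * s⌋₊)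

theorem lim3_eq (σ : ℝ) (m : ℕ) (hm : 1 ≤ m) :
    ∑' k : ℕ, ENNReal.ofReal (WW σ m (k + 1)) =
      ∫⁻ x in Ioi (0 : ℝ), ∫⁻ s in Ioo (0 : ℝ) 1, G3 σ m x s := by
  have hm0 : (0 : ℝ) < m := by exact_mod_cast hm
  have inner : ∀ k : ℕ, ∫⁻ s in Ioo (0 : ℝ) 1,
      ENNReal.ofReal ((m : ℝ) ^ 2 * T3 σ m k ⌊(m : ℝ) * s⌋₊) =
      ENNReal.ofReal (m * WW σ m (k + 1)) := by
    intro k
    rw [lim2_step01 m hm (fun n => ENNReal.ofReal ((m : ℝ) ^ 2 * T3 σ m k n))]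
    have h1 : ∀ n ∈ Finset.range m, ENNReal.ofReal ((m : ℝ) ^ 2 * T3 σ m k n) *
        ENNReal.ofReal (1 / m) = ENNReal.ofReal ((m : ℝ) * T3 σ m k n) := by
      intro n hn
      rw [← ENNReal.ofReal_mul (by have := T3_nonneg σ m k n; positivity)]
      congr 1
      field_simp
    rw [Finset.sum_congr rfl h1, ← ENNReal.ofReal_sum_of_nonneg, WW_eq, Finset.mul_sum]
    intro n hn
    have := T3_nonneg σ m k n
    positivity
  unfold G3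
  simp_rw [inner]
  rw [lim2_step m hm (fun k => ENNReal.ofReal (m * WW σ m (k + 1)))]
  refine tsum_congr fun k => ?_
  rw [← ENNReal.ofReal_mul (by have := WW_nonneg σ m k; positivity)]
  congr 1
  field_simp

theorem G3_meas (σ : ℝ) (m : ℕ) : Measurable (fun z : ℝ × ℝ => G3 σ m z.1 z.2) := by
  unfold G3
  have h1 : Measurable (fun z : ℝ × ℝ => (⌊(m : ℝ) * z.1⌋₊, ⌊(m : ℝ) * z.2⌋₊)) :=
    ((lim2_meas m).comp measurable_fst).prodMk ((lim2_meas m).comp measurable_snd)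
  obtain ⟨h, hh⟩ : ∃ h : ℕ × ℕ → ℝ≥0∞, h = fun p : ℕ × ℕ =>
      ENNReal.ofReal ((m : ℝ) ^ 2 * T3 σ m p.1 p.2) := ⟨_, rfl⟩
  have h2 : Measurable h := measurable_of_countable _
  have h3 := h2.comp h1
  rw [hh] at h3
  exact h3

theorem scale (σ : ℝ) (m k j : ℕ) (hm : 1 ≤ m) :
    (m : ℝ) ^ 2 * T3 σ m k j =
      (((k : ℝ) + 1) / m) * (((m : ℝ) + (k + 1) + 1) / m) ^ (-σ) * (((j : ℝ) + 1) / m) ^ (σ - 1) /
        (((k : ℝ) + 1 + j - 1 / 2) / m) ^ 2 := by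
  have hm0 : (0 : ℝ) < m := by exact_mod_cast hm
  unfold T3
  push_cast
  have hz : (0 : ℝ) < (k : ℝ) + 1 + j - 1 / 2 := by
    have h1 : (0 : ℝ) ≤ k := Nat.cast_nonneg k
    have h2 : (0 : ℝ) ≤ j := Nat.cast_nonneg j
    linarith
  rw [Real.div_rpow (by positivity) hm0.le, Real.div_rpow (by positivity) hm0.le]
  have e4 : (m : ℝ) ^ (σ - 1) = ((m : ℝ) ^ (-σ))⁻¹ * (m : ℝ)⁻¹ := by
    rw [← Real.rpow_neg hm0.le, neg_neg, Real.rpow_sub hm0, Real.rpow_one, div_eq_mul_inv]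
  rw [e4]
  have e5 : (m : ℝ) ^ (-σ) ≠ 0 := by positivity
  field_simp

theorem fl {x : ℝ} (hx : 0 ≤ x) :
    Tendsto (fun m : ℕ => ((⌊(m : ℝ) * x⌋₊ : ℕ) : ℝ) / m) atTop (𝓝 x) := by
  have h := (tendsto_nat_floor_mul_div_atTop (R := ℝ) hx).comp tendsto_natCast_atTop_atTop
  refine h.congr fun m => ?_
  simp only [Function.comp, mul_comm x]

theorem pt {σ x t : ℝ} (hx : 0 < x) (ht : 0 < t) :
    Tendsto (fun m : ℕ => (m : ℝ) ^ 2 * T3 σ m ⌊(m : ℝ) * x⌋₊ ⌊(m : ℝ) * t⌋₊) atTop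
      (𝓝 (x * (1 + x) ^ (-σ) * t ^ (σ - 1) / (x + t) ^ 2)) := by
  have h1 := fl hx.le
  have h2 := fl ht.le
  have c1 := tendsto_const_div_atTop_nhds_zero_nat (1 : ℝ)
  have c2 := tendsto_const_div_atTop_nhds_zero_nat (2 : ℝ)
  have c3 := tendsto_const_div_atTop_nhds_zero_nat (1 / 2 : ℝ)
  have hU : Tendsto (fun m : ℕ => (((⌊(m : ℝ) * x⌋₊ : ℕ) : ℝ) + 1) / m) atTop (𝓝 x) := by
    have := h1.add c1
    rw [add_zero] at this
    refine this.congr fun m => ?_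
    rw [add_div]
  have hW : Tendsto (fun m : ℕ => (((⌊(m : ℝ) * t⌋₊ : ℕ) : ℝ) + 1) / m) atTop (𝓝 t) := by
    have := h2.add c1
    rw [add_zero] at this
    refine this.congr fun m => ?_
    rw [add_div]
  have hV : Tendsto (fun m : ℕ => ((m : ℝ) + (((⌊(m : ℝ) * x⌋₊ : ℕ) : ℝ) + 1) + 1) / m) atTop
      (𝓝 (1 + x)) := by
    have := (h1.const_add 1).add c2
    rw [add_zero] at this
    refine this.congr' ?_
    filter_upwards [eventually_gt_atTop 0] with m hm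
    have hm0 : (m : ℝ) ≠ 0 := by exact_mod_cast hm.ne'
    field_simp
    ring
  have hZ : Tendsto (fun m : ℕ => (((⌊(m : ℝ) * x⌋₊ : ℕ) : ℝ) + 1 +
      ((⌊(m : ℝ) * t⌋₊ : ℕ) : ℝ) - 1 / 2) / m) atTop (𝓝 (x + t)) := by
    have := (h1.add h2).add c3
    rw [add_zero] at this
    refine this.congr fun m => ?_
    rw [← add_div, ← add_div]
    congr 1
    ring
  have hx1 : 0 < 1 + x := by linarith
  have hxt : 0 < x + t := by linarith
  have key := ((hU.mul ((Real.continuousAt_rpow_const _ (-σ) (Or.inl hx1.ne')).tendsto.comp hV)).mul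
    ((Real.continuousAt_rpow_const _ (σ - 1) (Or.inl ht.ne')).tendsto.comp hW)).div (hZ.pow 2)
    (by positivity)
  refine key.congr' ?_
  filter_upwards [eventually_gt_atTop 0] with m hm
  rw [scale σ m _ _ hm]
  rfl

theorem dom {σ x t : ℝ} (hσ : 0 < σ) (hσ1 : σ < 1) (hx : 0 < x) (ht : 0 < t) (m : ℕ) :
    (m : ℝ) ^ 2 * T3 σ m ⌊(m : ℝ) * x⌋₊ ⌊(m : ℝ) * t⌋₊ ≤
      16 * ((1 + x) ^ (-σ) * t ^ (σ - 1) / (x + t)) := by
  rcases Nat.eq_zero_or_pos m with hm | hm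
  · subst hm
    simp only [Nat.cast_zero, ne_eq, OfNat.ofNat_ne_zero, not_false_eq_true, zero_pow, zero_mul]
    positivity
  rw [scale σ m _ _ hm]
  have hm0 : (0 : ℝ) < m := by exact_mod_cast hm
  obtain ⟨k, hk⟩ : ∃ k : ℕ, k = ⌊(m : ℝ) * x⌋₊ := ⟨_, rfl⟩
  obtain ⟨j, hj⟩ : ∃ j : ℕ, j = ⌊(m : ℝ) * t⌋₊ := ⟨_, rfl⟩
  rw [← hk, ← hj]
  have hk1 : (m : ℝ) * x ≤ k + 1 := by rw [hk]; exact (Nat.lt_floor_add_one _).le
  have hj1 : (m : ℝ) * t ≤ j + 1 := by rw [hj]; exact (Nat.lt_floor_add_one _).le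
  have hk0 : (0 : ℝ) ≤ k := Nat.cast_nonneg k
  have hj0 : (0 : ℝ) ≤ j := Nat.cast_nonneg j
  obtain ⟨U, hU⟩ : ∃ U : ℝ, U = ((k : ℝ) + 1) / m := ⟨_, rfl⟩
  obtain ⟨V, hV⟩ : ∃ V : ℝ, V = ((m : ℝ) + (k + 1) + 1) / m := ⟨_, rfl⟩
  obtain ⟨W, hW⟩ : ∃ W : ℝ, W = ((j : ℝ) + 1) / m := ⟨_, rfl⟩
  obtain ⟨Z, hZ⟩ : ∃ Z : ℝ, Z = ((k : ℝ) + 1 + j - 1 / 2) / m := ⟨_, rfl⟩
  rw [← hU, ← hV, ← hW, ← hZ]
  have hUx : x ≤ U := by rw [hU, le_div_iff₀ hm0]; linarith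
  have hWt : t ≤ W := by rw [hW, le_div_iff₀ hm0]; linarith
  have hVx : 1 + x ≤ V := by
    rw [hV, le_div_iff₀ hm0]
    linarith
  have hZl : (U + W) / 4 ≤ Z := by
    rw [hU, hW, hZ, ← add_div, div_div, div_le_div_iff₀ (by positivity) hm0]
    nlinarith
  have hU0 : 0 < U := by linarith
  have hW0 : 0 < W := by linarith
  have hUW : 0 < U + W := by linarith
  have hxt : 0 < x + t := by linarith
  have b1 : V ^ (-σ) ≤ (1 + x) ^ (-σ) :=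
    Real.rpow_le_rpow_of_nonpos (by linarith) hVx (by linarith)
  have b2 : W ^ (σ - 1) ≤ t ^ (σ - 1) := Real.rpow_le_rpow_of_nonpos ht hWt (by linarith)
  have b3 : U / Z ^ 2 ≤ 16 / (x + t) := by
    have hZ2 : ((U + W) / 4) ^ 2 ≤ Z ^ 2 := by
      apply pow_le_pow_left₀ (by positivity) hZl
    calc U / Z ^ 2 ≤ U / ((U + W) / 4) ^ 2 :=
          div_le_div_of_nonneg_left hU0.le (by positivity) hZ2
      _ = 16 * (U / (U + W)) / (U + W) := by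
          field_simp
          ring
      _ ≤ 16 * 1 / (U + W) := by
          apply div_le_div_of_nonneg_right _ hUW.le
          apply mul_le_mul_of_nonneg_left _ (by norm_num)
          rw [div_le_one hUW]
          linarith
      _ ≤ 16 * 1 / (x + t) := by
          apply div_le_div_of_nonneg_left (by norm_num) hxt
          linarith
      _ = 16 / (x + t) := by rw [mul_one]
  calc U * V ^ (-σ) * W ^ (σ - 1) / Z ^ 2 = (V ^ (-σ) * W ^ (σ - 1)) * (U / Z ^ 2) := by ring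
    _ ≤ ((1 + x) ^ (-σ) * t ^ (σ - 1)) * (16 / (x + t)) := by
        apply mul_le_mul _ b3 (by positivity) (by positivity)
        apply mul_le_mul b1 b2 (by positivity) (by positivity)
    _ = _ := by ring

end LIM3P

open LIM3P in
theorem lim3 : S_LIM3 := by
  intro hPHI σ hσ hσ1
  have hphi := hPHI σ hσ hσ1
  obtain ⟨P, hP⟩ : ∃ P : Measure (ℝ × ℝ),
    P = (volume.restrict (Ioi (0 : ℝ))).prod (volume.restrict (Ioo (0 : ℝ) 1)) := ⟨_, rfl⟩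
  have hae : ∀ᵐ z ∂P, 0 < z.1 ∧ 0 < z.2 ∧ z.2 < 1 := by
    rw [hP, Measure.prod_restrict]
    filter_upwards [ae_restrict_mem (measurableSet_Ioi.prod measurableSet_Ioo)] with z hz
    exact ⟨hz.1, hz.2.1, hz.2.2⟩
  have hlim : ∀ᵐ z ∂P, Tendsto (fun m : ℕ => G3 σ m z.1 z.2) atTop
      (𝓝 (ENNReal.ofReal (z.1 * (1 + z.1) ^ (-σ) * z.2 ^ (σ - 1) / (z.1 + z.2) ^ 2))) := by
    filter_upwards [hae] with z hz
    exact ENNReal.tendsto_ofReal (pt hz.1 hz.2.1)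
  have hDm : Measurable (fun z : ℝ × ℝ =>
      ENNReal.ofReal (z.1 * (1 + z.1) ^ (-σ) * z.2 ^ (σ - 1) / (z.1 + z.2) ^ 2)) := by fun_prop
  have hbm : Measurable (fun z : ℝ × ℝ =>
      ENNReal.ofReal ((1 + z.1) ^ (-σ) * z.2 ^ (σ - 1) / (z.1 + z.2))) := by fun_prop
  have key : Tendsto (fun m : ℕ => ∫⁻ z, G3 σ m z.1 z.2 ∂P) atTop
      (𝓝 (∫⁻ z, ENNReal.ofReal (z.1 * (1 + z.1) ^ (-σ) * z.2 ^ (σ - 1) / (z.1 + z.2) ^ 2) ∂P)) := by
    refine tendsto_lintegral_of_dominated_convergence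
      (fun z : ℝ × ℝ => ENNReal.ofReal 16 *
        ENNReal.ofReal ((1 + z.1) ^ (-σ) * z.2 ^ (σ - 1) / (z.1 + z.2)))
      (fun m => G3_meas σ m) ?_ ?_ hlim
    · intro m
      filter_upwards [hae] with z hz
      rw [← ENNReal.ofReal_mul (by norm_num)]
      unfold G3
      exact ENNReal.ofReal_le_ofReal (dom hσ hσ1 hz.1 hz.2.1 m)
    · rw [lintegral_const_mul _ hbm, hP, lintegral_prod _ hbm.aemeasurable]
      exact ENNReal.mul_ne_top ENNReal.ofReal_ne_top (ne_top_of_le_ne_top ENNReal.ofReal_ne_top hphi)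
  rw [hP, lintegral_prod _ hDm.aemeasurable] at key
  unfold II
  refine key.congr' ?_
  filter_upwards [eventually_gt_atTop 0] with m hm
  rw [lim3_eq σ m hm, lintegral_prod _ (G3_meas σ m).aemeasurable]

end Pool.Agent.H76.CZ
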