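import Pool.Agent.H76.CZ.Stm
import Pool.Agent.H64.CX.LA
import Pool.Agent.H64.CX.LCD

set_option autoImplicit false

/-! # CZ-PHI: an explicit double integral (helper83) -/

namespace Pool.Agent.H76.CZ

open Set Filter Topology MeasureTheory
open scoped ENNReal
open Pool.Agent.H64.CX

namespace PHI

/-- weighted AM-GM (Bernoulli) -/
lemma amgm {σ x : ℝ} (hσ : 0 < σ) (hσ1 : σ < 1) (hx : 0 ≤ x) :
    (1 + x) ^ (-σ - 1) ≤ (1 - σ) / (1 + x) + σ / (1 + x) ^ 2 := by
  have h3 : 0 < 1 + x := by linarith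
  have h4 : 0 < (1 + x)⁻¹ := inv_pos.2 h3
  have h := rpow_one_add_le_one_add_mul_self (s := (1 + x)⁻¹ - 1) (p := σ) (by linarith) hσ.le hσ1.le
  have e : 1 + ((1 + x)⁻¹ - 1) = (1 + x)⁻¹ := by ring
  rw [e, Real.inv_rpow h3.le, ← Real.rpow_neg h3.le] at h
  rw [Real.rpow_sub_one h3.ne']
  have e2 : (1 - σ) / (1 + x) + σ / (1 + x) ^ 2 = (1 + σ * ((1 + x)⁻¹ - 1)) / (1 + x) := by
    field_simp
    ring
  rw [e2]
  exact div_le_div_of_nonneg_right h h3.le

/-- the majorant -/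
noncomputable def M (σ t x : ℝ) : ℝ :=
  (1 + x) ^ (-σ - 1) + (1 - t) * ((1 - σ) / (1 + x) + σ / (1 + x) ^ 2) / (x + t)

/-- its primitive -/
noncomputable def F (σ t x : ℝ) : ℝ :=
  -(1 / σ) * (1 + x) ^ (-σ) + (1 - σ) * (Real.log (t + x) - Real.log (1 + x)) +
    σ * ((Real.log (t + x) - Real.log (1 + x)) / (1 - t) + (1 + x)⁻¹)

lemma le_M {σ t x : ℝ} (hσ : 0 < σ) (hσ1 : σ < 1) (ht : 0 < t) (ht1 : t < 1) (hx : 0 ≤ x) :
    (1 + x) ^ (-σ) / (x + t) ≤ M σ t x := by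
  have h3 : 0 < 1 + x := by linarith
  have hxt : 0 < x + t := by linarith
  have e : (1 + x) ^ (-σ) / (x + t) =
      (1 + x) ^ (-σ - 1) + (1 - t) * (1 + x) ^ (-σ - 1) / (x + t) := by
    rw [Real.rpow_sub_one h3.ne']
    field_simp
    ring
  rw [e]
  unfold M
  have h := amgm hσ hσ1 hx
  have h1 : 0 < 1 - t := by linarith
  have h2 := div_le_div_of_nonneg_right (mul_le_mul_of_nonneg_left h h1.le) hxt.le
  linarith

lemma deriv_F {σ t x : ℝ} (hσ : 0 < σ) (ht : 0 < t) (ht1 : t < 1) (hx : 0 ≤ x) :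
    HasDerivAt (F σ t) (M σ t x) x := by
  have h1 : 0 < t + x := by positivity
  have h3 : 0 < 1 + x := by linarith
  have h4 : 0 < 1 - t := by linarith
  have d1 : HasDerivAt (fun x : ℝ => t + x) 1 x := (hasDerivAt_id x).const_add t
  have d3 : HasDerivAt (fun x : ℝ => 1 + x) 1 x := (hasDerivAt_id x).const_add 1
  have l1 := (d1.log h1.ne').sub (d3.log h3.ne')
  have p1 := (d3.rpow_const (p := -σ) (Or.inl h3.ne')).const_mul (-(1 / σ))
  have i1 := d3.inv h3.ne'
  have := (p1.add (l1.const_mul (1 - σ))).add (((l1.div_const (1 - t)).add i1).const_mul σ)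
  refine this.congr_deriv ?_
  unfold M
  have e1 : 1 / (t + x) - 1 / (1 + x) = (1 - t) / ((t + x) * (1 + x)) := by
    field_simp
    ring
  have e2 : (1 - t) / ((t + x) * (1 + x)) / (1 - t) = 1 / ((t + x) * (1 + x)) := by
    field_simp
  have e3 : -(1 / σ) * (1 * -σ * (1 + x) ^ (-σ - 1)) = (1 + x) ^ (-σ - 1) := by
    field_simp
  rw [e1, e2, e3, show x + t = t + x by ring]
  field_simp
  ring

lemma lim_F {σ t : ℝ} (hσ : 0 < σ) : Tendsto (F σ t) atTop (𝓝 0) := by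
  have hx : Tendsto (fun x : ℝ => 1 + x) atTop atTop := tendsto_atTop_add_const_left _ _ tendsto_id
  have h : Tendsto (fun x : ℝ => (1 + x) ^ (-σ)) atTop (𝓝 0) := (tendsto_rpow_neg_atTop hσ).comp hx
  have h2 := LA.lim_log t
  have h3 : Tendsto (fun x : ℝ => (1 + x)⁻¹) atTop (𝓝 0) := tendsto_inv_atTop_zero.comp hx
  have := ((h.const_mul (-(1 / σ))).add (h2.const_mul (1 - σ))).add
    (((h2.div_const (1 - t)).add h3).const_mul σ)
  have e : -(1 / σ) * 0 + (1 - σ) * 0 + σ * (0 / (1 - t) + 0) = 0 := by simp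
  rw [e] at this
  exact this

lemma log_le {t : ℝ} (ht : 0 < t) (ht1 : t < 1) : -(t * Real.log t) ≤ (1 - t) * Real.sqrt t := by
  obtain ⟨u, hu0, rfl⟩ : ∃ u : ℝ, 0 < u ∧ u ^ 2 = t :=
    ⟨Real.sqrt t, Real.sqrt_pos.2 ht, Real.sq_sqrt ht.le⟩
  rw [Real.sqrt_sq hu0.le, Real.log_pow]
  have hu1 : u < 1 := by nlinarith
  have h := Real.self_le_sinh_iff.2 (neg_nonneg.2 (Real.log_nonpos hu0.le hu1.le))
  rw [Real.sinh_eq, neg_neg, Real.exp_neg, Real.exp_log hu0] at h
  have h2 : u ^ 2 * (2 * -Real.log u) ≤ u ^ 2 * (u⁻¹ - u) :=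
    mul_le_mul_of_nonneg_left (by linarith) (sq_nonneg u)
  have h3 : u ^ 2 * (u⁻¹ - u) = (1 - u ^ 2) * u := by
    field_simp
  push_cast
  rw [h3] at h2
  linarith

lemma inner {σ t : ℝ} (hσ : 0 < σ) (hσ1 : σ < 1) (ht : 0 < t) (ht1 : t < 1) :
    ∫⁻ x in Ioi (0 : ℝ), ENNReal.ofReal ((1 + x) ^ (-σ) / (x + t)) ≤
      ENNReal.ofReal (1 / σ - σ - Real.log t + σ * Real.sqrt t) := by
  have h4 : 0 < 1 - t := by linarith
  have h := LA.fin (fun x => (1 + x) ^ (-σ) / (x + t)) (M σ t) (F σ t) 0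
    (fun x hx => deriv_F hσ ht ht1 hx)
    (fun x hx => by
      have hx' : (0 : ℝ) < x := hx
      have : 0 ≤ (1 + x) ^ (-σ) := Real.rpow_nonneg (by linarith) _
      exact le_trans (by positivity) (le_M hσ hσ1 ht ht1 hx'.le))
    (fun x hx => le_M hσ hσ1 ht ht1 (le_of_lt hx)) (lim_F hσ)
  refine h.trans (ENNReal.ofReal_le_ofReal ?_)
  unfold F
  simp only [add_zero, Real.log_one, sub_zero, Real.one_rpow, mul_one, inv_one]
  have h5 := log_le ht ht1
  have h6 : -(t * Real.log t) / (1 - t) ≤ Real.sqrt t := by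
    rw [div_le_iff₀ h4]
    linarith
  have h7 := mul_le_mul_of_nonneg_left h6 hσ.le
  have h8 : Real.log t / (1 - t) = Real.log t - -(t * Real.log t) / (1 - t) := by
    field_simp
    ring
  rw [h8]
  linarith

end PHI

open PHI LCD in
theorem phi : S_PHI := by
  intro σ hσ hσ1
  have hm : Measurable (fun p : ℝ × ℝ =>
      ENNReal.ofReal ((1 + p.1) ^ (-σ) * p.2 ^ (σ - 1) / (p.1 + p.2))) := by
    fun_prop
  rw [lintegral_lintegral_swap hm.aemeasurable]
  have hs1 : 0 ≤ 1 / σ - σ := by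
    have : 1 ≤ 1 / σ := by rw [le_div_iff₀ hσ]; linarith
    linarith
  have hσ2 : 0 < σ + 1 / 2 := by linarith
  calc ∫⁻ t in Ioo (0 : ℝ) 1, ∫⁻ x in Ioi (0 : ℝ),
        ENNReal.ofReal ((1 + x) ^ (-σ) * t ^ (σ - 1) / (x + t))
      ≤ ∫⁻ t in Ioo (0 : ℝ) 1,
          ENNReal.ofReal (t ^ (σ - 1) * (1 / σ - σ - Real.log t + σ * Real.sqrt t)) := by
        refine setLIntegral_mono' measurableSet_Ioo fun t ht => ?_
        have ht0 : 0 ≤ t ^ (σ - 1) := Real.rpow_nonneg ht.1.le _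
        rw [ENNReal.ofReal_mul ht0]
        have e : ∀ x : ℝ, ENNReal.ofReal ((1 + x) ^ (-σ) * t ^ (σ - 1) / (x + t)) =
            ENNReal.ofReal (t ^ (σ - 1)) * ENNReal.ofReal ((1 + x) ^ (-σ) / (x + t)) := by
          intro x
          rw [← ENNReal.ofReal_mul ht0]
          congr 1
          ring
        simp only [e]
        rw [lintegral_const_mul' _ _ ENNReal.ofReal_ne_top]
        exact mul_le_mul_right (inner hσ hσ1 ht.1 ht.2) _
    _ ≤ ENNReal.ofReal ((fun t : ℝ => (1 / σ - σ) * JP σ t + LP σ t + σ * JP (σ + 1 / 2) t) 1 -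
          (fun t : ℝ => (1 / σ - σ) * JP σ t + LP σ t + σ * JP (σ + 1 / 2) t) 0) := by
        have c1 := JP_cont hσ
        have c2 := LP_cont hσ
        have c3 := JP_cont hσ2
        refine lint (G := fun t : ℝ => (1 / σ - σ) * JP σ t + LP σ t + σ * JP (σ + 1 / 2) t)
          (G' := fun t : ℝ => (1 / σ - σ) * t ^ (σ - 1) + t ^ (σ - 1) * (-Real.log t) +
            σ * t ^ (σ + 1 / 2 - 1)) zero_le_one (by fun_prop) ?_ ?_ ?_ ?_
        · intro t ht
          exact (((JP_deriv hσ ht.1).const_mul (1 / σ - σ)).add (LP_deriv hσ ht.1)).add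
            ((JP_deriv hσ2 ht.1).const_mul σ)
        · intro t ht
          have h1 := Real.log_nonpos ht.1.le ht.2.le
          have h2 : 0 ≤ t ^ (σ - 1) := Real.rpow_nonneg ht.1.le _
          have h3 : 0 ≤ t ^ (σ + 1 / 2 - 1) := Real.rpow_nonneg ht.1.le _
          have h4 := mul_nonneg hs1 h2
          have h5 := mul_nonneg h2 (neg_nonneg.2 h1)
          have h6 := mul_nonneg hσ.le h3
          linarith
        · intro t ht _
          have e : t ^ (σ + 1 / 2 - 1) = t ^ (σ - 1) * Real.sqrt t := by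
            rw [Real.sqrt_eq_rpow, ← Real.rpow_add ht.1]
            congr 1
            ring
          simp only [e]
          refine le_of_eq ?_
          ring
        · intro t ht hn
          exact absurd ht hn
    _ = ENNReal.ofReal (2 / σ ^ 2 - 1 + σ / (σ + 1 / 2)) := by
        simp only [JP_one, LP_one, JP_zero hσ, LP_zero hσ, JP_zero hσ2]
        congr 1
        field_simp
        ring

end Pool.Agent.H76.CZ
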