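import Pool.Agent.H76.CZ.ID2
import Pool.Agent.H76.CY.Half

set_option autoImplicit false

/-! # The bound at `α = -1/2` from the one-sided identity -/

namespace Pool.Agent.H76.CZ

open Complex Metric Set Filter Topology MeasureTheory
open scoped ENNReal
open Pool.Agent.W677.Mar Pool.Agent.W5h41.MA Pool.Agent.R250.MC Pool.Agent.H64.CX
open Pool.Agent.H76.CY

/-- the value of the bound -/
noncomputable def UU (σ : ℝ) : ℝ := 1 / σ + (1 - σ) * (2 / σ ^ 2 - 1 + σ / (σ + 1 / 2))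

/-- the sums are eventually less than `1` -/
theorem sm3 (phi : S_PHI) (int : S_INT) (lim3 : S_LIM3) {σ : ℝ} (h0 : 0 < σ) (h1 : σ < 1)
    (hU : UU σ < Real.pi ^ 2) :
    ∃ (δ : ℝ) (M₀ : ℕ), 0 < δ ∧ δ ≤ 1 ∧ ∀ m, M₀ ≤ m →
      ∑' k : ℕ, ENNReal.ofReal ((1 + 100 / Real.sqrt m) * (1 / Real.pi ^ 2) * WW σ m (k + 1)) ≤
        ENNReal.ofReal (1 - δ) := by
  have hpi : 0 < Real.pi ^ 2 := by have := Real.pi_pos; positivity
  have hU0 : 0 ≤ UU σ := by
    unfold UU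
    have h2 : 1 ≤ 2 / σ ^ 2 := by
      rw [le_div_iff₀ (by positivity)]
      nlinarith
    have h3 : 0 ≤ σ / (σ + 1 / 2) := by positivity
    have h4 : 0 ≤ (1 - σ) * (2 / σ ^ 2 - 1 + σ / (σ + 1 / 2)) :=
      mul_nonneg (by linarith) (by linarith)
    positivity
  obtain ⟨U', hU1, hU2⟩ := exists_between hU
  have hU'0 : 0 < U' := hU0.trans_lt hU1
  have hII : II σ < ENNReal.ofReal U' :=
    (int phi σ h0 h1).trans_lt ((ENNReal.ofReal_lt_ofReal_iff hU'0).2 hU1)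
  obtain ⟨θ, hθ1, hθ2⟩ := exists_between (show U' / Real.pi ^ 2 < 1 from (div_lt_one hpi).2 hU2)
  have hθ0 : 0 ≤ θ := (by positivity : 0 ≤ U' / Real.pi ^ 2).trans hθ1.le
  have ht : Tendsto (fun m : ℕ => (1 + 100 / Real.sqrt m) * (U' / Real.pi ^ 2)) atTop
      (𝓝 ((1 + 0) * (U' / Real.pi ^ 2))) := by
    apply Tendsto.mul_const
    apply Tendsto.const_add
    have h5 : Tendsto (fun m : ℕ => Real.sqrt m) atTop atTop :=
      Real.tendsto_sqrt_atTop.comp tendsto_natCast_atTop_atTop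
    exact h5.const_div_atTop 100
  rw [add_zero, one_mul] at ht
  obtain ⟨M₁, hM₁⟩ := eventually_atTop.1 ((lim3 phi σ h0 h1).eventually (gt_mem_nhds hII))
  obtain ⟨M₂, hM₂⟩ := eventually_atTop.1 (ht.eventually (gt_mem_nhds hθ1))
  refine ⟨1 - θ, max M₁ M₂, by linarith, by linarith, fun m hm => ?_⟩
  have h6 := hM₁ m ((le_max_left _ _).trans hm)
  have h7 := hM₂ m ((le_max_right _ _).trans hm)
  have hc : 0 ≤ (1 + 100 / Real.sqrt m) * (1 / Real.pi ^ 2) := by positivity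
  have e1 : ∑' k : ℕ, ENNReal.ofReal ((1 + 100 / Real.sqrt m) * (1 / Real.pi ^ 2) * WW σ m (k + 1)) =
      ENNReal.ofReal ((1 + 100 / Real.sqrt m) * (1 / Real.pi ^ 2)) *
        ∑' k : ℕ, ENNReal.ofReal (WW σ m (k + 1)) := by
    rw [← ENNReal.tsum_mul_left]
    refine tsum_congr fun k => ?_
    rw [ENNReal.ofReal_mul hc]
  rw [e1, show (1 : ℝ) - (1 - θ) = θ by ring]
  calc ENNReal.ofReal ((1 + 100 / Real.sqrt m) * (1 / Real.pi ^ 2)) *
        ∑' k : ℕ, ENNReal.ofReal (WW σ m (k + 1))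
      ≤ ENNReal.ofReal ((1 + 100 / Real.sqrt m) * (1 / Real.pi ^ 2)) * ENNReal.ofReal U' :=
        mul_le_mul_right h6.le _
    _ = ENNReal.ofReal ((1 + 100 / Real.sqrt m) * (U' / Real.pi ^ 2)) := by
        rw [← ENNReal.ofReal_mul hc]
        congr 1
        ring
    _ ≤ ENNReal.ofReal θ := ENNReal.ofReal_le_ofReal h7.le

/-- **The bound at `α = -1/2`.** -/
theorem bd3 (u2 : S_U2) (cs2 : S_CS2) (phi : S_PHI) (int : S_INT) (lim3 : S_LIM3) {σ : ℝ}
    (h0 : 0 < σ) (h1 : σ < 1) (hU : UU σ < Real.pi ^ 2) : Bd (-(1 / 2)) σ := by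
  have hre : (-(1 / 2) : ℂ).re = -(1 / 2) := by norm_num
  have hμ : σ + 2 * (-(1 / 2) : ℂ).re = σ - 1 := by rw [hre]; ring
  refine bd_of Pool.Agent.H64.BR.dps Pool.Agent.H64.BR.mean ser hid btu hbn lown summn cau core fb
    idx ?_ ?_ ?_ h0 (by linarith) ?_ (aw_every _ _)
    (fun m k => (1 + 100 / Real.sqrt m) * (1 / Real.pi ^ 2) * WW σ m k) ?_
    (sm3 phi int lim3 h0 h1 hU)
  · rw [norm_neg, norm_div, norm_one]
    norm_num
  · rw [hre]
  · rw [hre]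
    norm_num
  · rw [hμ]
    linarith
  · intro ν hν m k hm hk
    rw [hμ]
    exact cs2 id2 u2 σ h0 h1 ν hν m k hm hk

theorem num397 : UU (397 / 1000) < Real.pi ^ 2 := by
  have h := Real.pi_gt_d6
  have h2 : (3.141592 : ℝ) ^ 2 < Real.pi ^ 2 := by
    apply pow_lt_pow_left₀ h (by norm_num) (by norm_num)
  refine lt_trans ?_ h2
  unfold UU
  norm_num

end Pool.Agent.H76.CZ
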