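import Pool.Agent.H76.CZ.Stm

set_option autoImplicit false

/-! # CZ-CS2: the Cauchy-Schwarz inequality (helper83) -/

namespace Pool.Agent.H76.CZ

open Set Filter Topology MeasureTheory
open scoped ENNReal
open Pool.Agent.H64.CX

namespace CS2

lemma factor {r y : ℝ} (hr : 0 < r) (hr1 : r ≤ 1) (hy : 0 < y) (hy1 : y ≤ 1 / 2)
    (hyr : y ≤ r ^ 2) : (1 + y) * (1 / (1 - y / 2)) ^ 2 * (1 + r) ^ 2 ≤ 1 + 100 * r := by
  have h0 : 0 < 1 - y / 2 := by linarith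
  have h1 : (1 / (1 - y / 2)) ^ 2 ≤ 1 + 2 * y := by
    rw [div_pow, one_pow, div_le_iff₀ (by positivity)]
    have : 0 ≤ y * (1 - 7 / 4 * y) := mul_nonneg hy.le (by linarith)
    have h3 : 0 < y ^ 3 := by positivity
    nlinarith
  have h2 : y ≤ r := by nlinarith
  have h3 : (1 + y) * (1 / (1 - y / 2)) ^ 2 ≤ 1 + 5 * r := by
    calc (1 + y) * (1 / (1 - y / 2)) ^ 2 ≤ (1 + y) * (1 + 2 * y) :=
          mul_le_mul_of_nonneg_left h1 (by linarith)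
      _ ≤ 1 + 5 * r := by nlinarith
  have h4 : (1 + r) ^ 2 ≤ 1 + 3 * r := by nlinarith
  calc (1 + y) * (1 / (1 - y / 2)) ^ 2 * (1 + r) ^ 2 ≤ (1 + 5 * r) * (1 + 3 * r) :=
        mul_le_mul h3 h4 (by positivity) (by positivity)
    _ ≤ 1 + 100 * r := by nlinarith

end CS2

open CS2 in
theorem cs2 : S_CS2 := by
  intro hID hU σ hσ hσ1 ν hν m k hm hk
  obtain ⟨hU1, hU2⟩ := hU
  have hα : ∀ j : ℤ, (-(1 / 2) : ℂ) ≠ (j : ℂ) := by
    intro j h
    have h1 : ((2 * j + 1 : ℤ) : ℂ) = 0 := by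
      push_cast
      linear_combination -2 * h
    have h2 : (2 * j + 1 : ℤ) = 0 := by exact_mod_cast h1
    omega
  have hid := hID (-(1 / 2)) ν hν hα m k hm hk
  have hmR : (1 : ℝ) ≤ m := by exact_mod_cast hm
  have hkR : (1 : ℝ) ≤ k := by exact_mod_cast hk
  obtain ⟨V, hV⟩ : ∃ V : ℕ → ℝ, V = fun n : ℕ =>
    ((m : ℝ) + k) * ‖bt (1 - (-(1 / 2))) (n - 1)‖ / ((m : ℝ) + k - n - 1 / 2) := ⟨_, rfl⟩
  obtain ⟨T, hT⟩ : ∃ T : ℕ → ℝ, T = fun n : ℕ => ‖TP (-(1 / 2)) ν n m‖ := ⟨_, rfl⟩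
  have hV0 : ∀ n ∈ Finset.Icc 1 m, 0 ≤ V n := by
    intro n hn
    rw [Finset.mem_Icc] at hn
    have hn2 : (n : ℝ) ≤ m := by exact_mod_cast hn.2
    rw [hV]
    have : 0 < (m : ℝ) + k - n - 1 / 2 := by linarith
    positivity
  have hT0 : ∀ n, 0 ≤ T n := fun n => by rw [hT]; exact norm_nonneg _
  have h2 : ‖TN (-(1 / 2)) ν k m‖ ≤ ‖bt (-(1 / 2)) (m + k)‖ * (T m +
      ∑ n ∈ Finset.Icc 1 m, V n * T n) := by
    rw [hid, norm_mul]
    refine mul_le_mul_of_nonneg_left ((norm_add_le _ _).trans (add_le_add (by rw [hT])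
      ((norm_sum_le _ _).trans (Finset.sum_le_sum fun n hn => ?_)))) (norm_nonneg _)
    rw [Finset.mem_Icc] at hn
    have hn2 : (n : ℝ) ≤ m := by exact_mod_cast hn.2
    rw [norm_mul, norm_div, norm_mul]
    have e1 : ‖(m : ℂ) + k‖ = (m : ℝ) + k := by
      rw [← Nat.cast_add, Complex.norm_natCast]
      push_cast
      rfl
    have e2 : ‖(m : ℂ) + k - n + (-(1 / 2))‖ = (m : ℝ) + k - n - 1 / 2 := by
      have : (m : ℂ) + k - n + (-(1 / 2)) = (((m : ℝ) + k - n - 1 / 2 : ℝ) : ℂ) := by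
        push_cast
        ring
      rw [this, Complex.norm_real, Real.norm_eq_abs, abs_of_pos (by linarith)]
    rw [e1, e2, hV, hT]
  obtain ⟨S, hS⟩ : ∃ S : ℝ, S = ∑ n ∈ Finset.Icc 1 m, V n * T n := ⟨_, rfl⟩
  rw [← hS] at h2
  have hS0 : 0 ≤ S := by
    rw [hS]
    exact Finset.sum_nonneg fun n hn => mul_nonneg (hV0 n hn) (hT0 n)
  have hsm : 0 < Real.sqrt m := Real.sqrt_pos.2 (by linarith)
  obtain ⟨r, hr⟩ : ∃ r : ℝ, r = 1 / Real.sqrt m := ⟨_, rfl⟩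
  have hr0 : 0 < r := by rw [hr]; positivity
  have hr2 : r ^ 2 = 1 / m := by
    rw [hr, div_pow, one_pow, Real.sq_sqrt (by linarith)]
  have hr1 : r ≤ 1 := by
    rw [hr, div_le_one hsm]
    exact Real.one_le_sqrt.2 hmR
  -- the extra term
  have h3 : T m ≤ r * S := by
    have hmm : m ∈ Finset.Icc 1 m := Finset.mem_Icc.2 ⟨hm, le_rfl⟩
    have h4 : V m * T m ≤ S := by
      rw [hS]
      exact Finset.single_le_sum (f := fun n => V n * T n)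
        (fun n hn => mul_nonneg (hV0 n hn) (hT0 n)) hmm
    have h5 : Real.sqrt m ≤ V m := by
      have h6 : Real.sqrt m ≤ ‖bt (1 - (-(1 / 2))) (m - 1)‖ :=
        Real.sqrt_le_iff.2 ⟨norm_nonneg _, (hU1 m hm).1⟩
      refine h6.trans ?_
      rw [hV]
      have h7 : 0 < (m : ℝ) + k - m - 1 / 2 := by linarith
      simp only
      rw [le_div_iff₀ h7]
      have := norm_nonneg (bt (1 - (-(1 / 2))) (m - 1))
      nlinarith
    have h8 : Real.sqrt m * T m ≤ S := (mul_le_mul_of_nonneg_right h5 (hT0 m)).trans h4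
    rw [hr, one_div, inv_mul_eq_div, le_div_iff₀ hsm, mul_comm]
    exact h8
  -- Cauchy
  have h4 : S ^ 2 ≤ (∑ n ∈ Finset.Icc 1 m, V n ^ 2 * (1 / (n : ℝ)) * ((m : ℝ) - n + 1) ^ (σ - 1)) *
      PP (-(1 / 2)) ν (σ - 1) m := by
    unfold PP
    rw [hS]
    apply Finset.sum_sq_le_sum_mul_sum_of_sq_le_mul
    · intro n hn
      rw [Finset.mem_Icc] at hn
      have hn2 : (n : ℝ) ≤ m := by exact_mod_cast hn.2
      have : 0 ≤ ((m : ℝ) - n + 1) ^ (σ - 1) := Real.rpow_nonneg (by linarith) _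
      positivity
    · intro n hn
      rw [Finset.mem_Icc] at hn
      have hn2 : (n : ℝ) ≤ m := by exact_mod_cast hn.2
      have : 0 ≤ ((m : ℝ) - n + 1) ^ (-(σ - 1)) := Real.rpow_nonneg (by linarith) _
      positivity
    · intro n hn
      rw [Finset.mem_Icc] at hn
      have hn2 : (n : ℝ) ≤ m := by exact_mod_cast hn.2
      have hn1 : (1 : ℝ) ≤ n := by exact_mod_cast hn.1
      have h4 : ((m : ℝ) - n + 1) ^ (σ - 1) * ((m : ℝ) - n + 1) ^ (-(σ - 1)) = 1 := by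
        rw [← Real.rpow_add (by linarith), add_neg_cancel, Real.rpow_zero]
      have h5 : 1 / (n : ℝ) * n = 1 := by
        field_simp
      refine le_of_eq ?_
      calc (V n * T n) ^ 2 = V n ^ 2 * T n ^ 2 * (1 / (n : ℝ) * n) *
            (((m : ℝ) - n + 1) ^ (σ - 1) * ((m : ℝ) - n + 1) ^ (-(σ - 1))) := by
            rw [h4, h5]; ring
        _ = V n ^ 2 * (1 / (n : ℝ)) * ((m : ℝ) - n + 1) ^ (σ - 1) *
            ((n : ℝ) * ((m : ℝ) - n + 1) ^ (-(σ - 1)) * T n ^ 2) := by ring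
        _ = _ := by rw [hT]
  obtain ⟨Q, hQ⟩ : ∃ Q : ℝ, Q = ∑ j ∈ Finset.range m,
    ((j : ℝ) + 1) ^ (σ - 1) / ((k : ℝ) + j - 1 / 2) ^ 2 := ⟨_, rfl⟩
  have hPP0 : 0 ≤ PP (-(1 / 2)) ν (σ - 1) m := by
    unfold PP
    refine Finset.sum_nonneg fun n hn => ?_
    rw [Finset.mem_Icc] at hn
    have hn2 : (n : ℝ) ≤ m := by exact_mod_cast hn.2
    have : 0 ≤ ((m : ℝ) - n + 1) ^ (-(σ - 1)) := Real.rpow_nonneg (by linarith) _
    positivity
  have hQ0 : 0 ≤ Q := by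
    rw [hQ]
    refine Finset.sum_nonneg fun n _ => ?_
    have : 0 ≤ ((n : ℝ) + 1) ^ (σ - 1) := Real.rpow_nonneg (by positivity) _
    positivity
  have h5 : ∑ n ∈ Finset.Icc 1 m, V n ^ 2 * (1 / (n : ℝ)) * ((m : ℝ) - n + 1) ^ (σ - 1) ≤
      ((m : ℝ) + k) ^ 2 * (4 / Real.pi) * Q := by
    have e : Q = ∑ n ∈ Finset.Icc 1 m,
        ((m : ℝ) - n + 1) ^ (σ - 1) / ((m : ℝ) + k - n - 1 / 2) ^ 2 := by
      rw [hQ]
      refine Finset.sum_nbij' (fun j => m - j) (fun n => m - n) ?_ ?_ ?_ ?_ ?_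
      · intro j hj
        rw [Finset.mem_range] at hj
        rw [Finset.mem_Icc]
        omega
      · intro n hn
        rw [Finset.mem_Icc] at hn
        rw [Finset.mem_range]
        omega
      · intro j hj
        rw [Finset.mem_range] at hj
        omega
      · intro n hn
        rw [Finset.mem_Icc] at hn
        omega
      · intro j hj
        rw [Finset.mem_range] at hj
        rw [Nat.cast_sub hj.le]
        congr 2
        · ring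
        · ring
    rw [e, Finset.mul_sum]
    refine Finset.sum_le_sum fun n hn => ?_
    rw [Finset.mem_Icc] at hn
    have hn2 : (n : ℝ) ≤ m := by exact_mod_cast hn.2
    have hn1 : (1 : ℝ) ≤ n := by exact_mod_cast hn.1
    have h6 := (hU1 n hn.1).2
    have h7 : 0 < (m : ℝ) + k - n - 1 / 2 := by linarith
    have h8 : 0 ≤ ((m : ℝ) - n + 1) ^ (σ - 1) := Real.rpow_nonneg (by linarith) _
    have h9 : ‖bt (1 - (-(1 / 2))) (n - 1)‖ ^ 2 * (1 / (n : ℝ)) ≤ 4 / Real.pi := by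
      rw [mul_one_div, div_le_iff₀ (by linarith)]
      exact h6
    have h10 : 0 ≤ ((m : ℝ) + k) ^ 2 / ((m : ℝ) + k - n - 1 / 2) ^ 2 *
        ((m : ℝ) - n + 1) ^ (σ - 1) := by positivity
    have h11 := mul_le_mul_of_nonneg_left h9 h10
    rw [hV]
    calc (((m : ℝ) + k) * ‖bt (1 - (-(1 / 2))) (n - 1)‖ / ((m : ℝ) + k - n - 1 / 2)) ^ 2 *
          (1 / (n : ℝ)) * ((m : ℝ) - n + 1) ^ (σ - 1)
        = ((m : ℝ) + k) ^ 2 / ((m : ℝ) + k - n - 1 / 2) ^ 2 * ((m : ℝ) - n + 1) ^ (σ - 1) *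
          (‖bt (1 - (-(1 / 2))) (n - 1)‖ ^ 2 * (1 / (n : ℝ))) := by
          generalize (m : ℝ) + k - n - 1 / 2 = x
          ring
      _ ≤ _ := h11
      _ = _ := by ring
  -- assembly
  obtain ⟨B, hB⟩ : ∃ B : ℝ, B = ‖bt (-(1 / 2)) (m + k)‖ := ⟨_, rfl⟩
  have hB0 : 0 ≤ B := by rw [hB]; exact norm_nonneg _
  obtain ⟨N, hN⟩ : ∃ N : ℝ, N = (m : ℝ) + k := ⟨_, rfl⟩
  have hN2 : 2 ≤ N := by rw [hN]; linarith
  have hBN := hU2 (m + k) (by omega)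
  push_cast at hBN
  rw [← hB, ← hN] at hBN
  rw [← hN] at h5
  have h6 : ‖TN (-(1 / 2)) ν k m‖ ≤ B * ((1 + r) * S) := by
    rw [hB]
    refine h2.trans (mul_le_mul_of_nonneg_left ?_ (norm_nonneg _))
    linarith
  have h7 : ‖TN (-(1 / 2)) ν k m‖ ^ 2 ≤ B ^ 2 * (1 + r) ^ 2 * S ^ 2 := by
    refine (pow_le_pow_left₀ (norm_nonneg _) h6 2).trans (le_of_eq ?_)
    ring
  have h8 : S ^ 2 ≤ N ^ 2 * (4 / Real.pi) * Q * PP (-(1 / 2)) ν (σ - 1) m :=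
    h4.trans (mul_le_mul_of_nonneg_right h5 hPP0)
  have hpi := Real.pi_pos
  obtain ⟨P, hP⟩ : ∃ P : ℝ, P = PP (-(1 / 2)) ν (σ - 1) m := ⟨_, rfl⟩
  rw [← hP] at h8 hPP0 ⊢
  have h9 : ‖TN (-(1 / 2)) ν k m‖ ^ 2 ≤
      (1 / (4 * Real.pi * N) * (N / (N - 1 / 2)) ^ 2) * ((1 + r) ^ 2 * (4 / Real.pi) * Q * P) := by
    calc ‖TN (-(1 / 2)) ν k m‖ ^ 2 ≤ B ^ 2 * (1 + r) ^ 2 * S ^ 2 := h7
      _ ≤ B ^ 2 * (1 + r) ^ 2 * (N ^ 2 * (4 / Real.pi) * Q * P) :=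
          mul_le_mul_of_nonneg_left h8 (by positivity)
      _ = (B ^ 2 * N ^ 2) * ((1 + r) ^ 2 * (4 / Real.pi) * Q * P) := by ring
      _ ≤ _ := mul_le_mul_of_nonneg_right hBN (by positivity)
  have hf := factor (r := r) (y := 1 / N) hr0 hr1 (by positivity)
    (by rw [div_le_div_iff₀ (by linarith) (by norm_num)]; linarith)
    (by
      rw [hr2]
      exact one_div_le_one_div_of_le (by linarith) (by rw [hN]; linarith))
  have hpw : (N + 1) ^ (-(σ - 1)) = (N + 1) ^ (-σ) * (N + 1) := by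
    rw [show -(σ - 1) = -σ + 1 by ring, Real.rpow_add_one (by linarith)]
  have hw0 : 0 ≤ (N + 1) ^ (-σ) := Real.rpow_nonneg (by linarith) _
  have hWW : WW σ m k = (k : ℝ) * (N + 1) ^ (-σ) * Q := by
    unfold WW
    rw [← hN, ← hQ]
  have hr100 : 100 / Real.sqrt m = 100 * r := by rw [hr]; ring
  rw [← hN, hWW, hpw, hr100]
  have h10 : (N + 1) * ((1 / (4 * Real.pi * N) * (N / (N - 1 / 2)) ^ 2) *
      ((1 + r) ^ 2 * (4 / Real.pi) * Q * P)) =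
      ((1 + 1 / N) * (1 / (1 - 1 / N / 2)) ^ 2 * (1 + r) ^ 2) * (1 / Real.pi ^ 2 * Q * P) := by
    have e1 : N / (N - 1 / 2) = 1 / (1 - 1 / N / 2) := by
      have : N - 1 / 2 ≠ 0 := by linarith
      have h2 : 1 - 1 / N / 2 ≠ 0 := by
        have : 1 / N ≤ 1 / 2 := one_div_le_one_div_of_le (by norm_num) hN2
        linarith
      rw [div_eq_div_iff this h2]
      have : N * (1 / N) = 1 := mul_one_div_cancel (by linarith)
      linear_combination (-1 / 2) * this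
    have e2 : (N + 1) * (1 / (4 * Real.pi * N)) * (4 / Real.pi) = (1 + 1 / N) * (1 / Real.pi ^ 2) := by
      field_simp
    rw [e1]
    linear_combination ((1 / (1 - 1 / N / 2)) ^ 2 * ((1 + r) ^ 2 * Q * P)) * e2
  calc (k : ℝ) * ((N + 1) ^ (-σ) * (N + 1)) * ‖TN (-(1 / 2)) ν k m‖ ^ 2
      ≤ (k : ℝ) * ((N + 1) ^ (-σ) * (N + 1)) * ((1 / (4 * Real.pi * N) * (N / (N - 1 / 2)) ^ 2) *
        ((1 + r) ^ 2 * (4 / Real.pi) * Q * P)) :=
        mul_le_mul_of_nonneg_left h9 (by positivity)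
    _ = (k : ℝ) * (N + 1) ^ (-σ) * ((N + 1) * ((1 / (4 * Real.pi * N) * (N / (N - 1 / 2)) ^ 2) *
        ((1 + r) ^ 2 * (4 / Real.pi) * Q * P))) := by ring
    _ = (k : ℝ) * (N + 1) ^ (-σ) * (((1 + 1 / N) * (1 / (1 - 1 / N / 2)) ^ 2 * (1 + r) ^ 2) *
        (1 / Real.pi ^ 2 * Q * P)) := by rw [h10]
    _ ≤ (k : ℝ) * (N + 1) ^ (-σ) * ((1 + 100 * r) * (1 / Real.pi ^ 2 * Q * P)) := by
        apply mul_le_mul_of_nonneg_left _ (by positivity)
        exact mul_le_mul_of_nonneg_right hf (by positivity)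
    _ = (1 + 100 * r) * (1 / Real.pi ^ 2) * ((k : ℝ) * (N + 1) ^ (-σ) * Q) * P := by ring

end Pool.Agent.H76.CZ
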