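import Pool.Agent.H76.CZ.Mean
import Pool.Agent.H76.CY.HalfDisc

set_option autoImplicit false

/-! # The first moment and the coefficients of bounded univalent functions in the disc -/

namespace Pool.Agent.H76.CZ

open Complex Metric Set Filter Topology MeasureTheory
open Pool.Agent.W677.Mar
open Pool.Agent.H76.CY (deriv_le_bdd circ_mem' circ_ne' coef_le coef_growth)

/-- the mean -/
theorem disc_mean {C : ℝ} (hC : ∀ Y H : ℂ → ℂ, Sg Y H → ∀ r ∈ Ioo (0 : ℝ) 1,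
    ∫ x in (0 : ℝ)..(2 * Real.pi), ‖Complex.exp (H (circleMap 0 r x))‖ ≤
      C * (1 - r) ^ (-(397 / 1000) : ℝ)) {f : ℂ → ℂ} {M : ℝ} (hf : DifferentiableOn ℂ f (ball 0 1))
    (hi : InjOn f (ball 0 1)) (h0 : f 0 = 0) (h1 : deriv f 0 = 1)
    (hM : ∀ z ∈ ball (0 : ℂ) 1, ‖f z‖ ≤ M) {r : ℝ} (hr : r ∈ Ioo (0 : ℝ) 1) :
    ∫ x in (0 : ℝ)..(2 * Real.pi), ‖deriv f (circleMap 0 r x)‖ ≤
      M ^ 2 * C * (1 - r) ^ (-(397 / 1000) : ℝ) := by
  obtain ⟨Y, H, S, hle⟩ := deriv_le_bdd hf hi h0 h1 hM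
  have hdc : ContinuousOn (deriv f) (ball 0 1) := (hf.deriv isOpen_ball).continuousOn
  have c1 : Continuous fun t : ℝ => ‖deriv f (circleMap 0 r t)‖ :=
    (hdc.comp_continuous (continuous_circleMap 0 r) fun t => circ_mem' hr t).norm
  have c2 : Continuous fun t : ℝ => M ^ 2 * ‖Complex.exp (H (circleMap 0 r t))‖ :=
    continuous_const.mul (Complex.continuous_exp.comp (S.dH.continuousOn.comp_continuous
      (continuous_circleMap 0 r) fun t => circ_mem' hr t)).norm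
  have h2 : ∫ x in (0 : ℝ)..(2 * Real.pi), ‖deriv f (circleMap 0 r x)‖ ≤
      ∫ x in (0 : ℝ)..(2 * Real.pi), M ^ 2 * ‖Complex.exp (H (circleMap 0 r x))‖ :=
    intervalIntegral.integral_mono_on (μ := volume) (by positivity) (c1.intervalIntegrable _ _)
      (c2.intervalIntegrable _ _) fun t _ => hle _ (circ_mem' hr t) (circ_ne' hr t)
  rw [intervalIntegral.integral_const_mul] at h2
  refine h2.trans ?_
  have h3 := mul_le_mul_of_nonneg_left (hC Y H S r hr) (sq_nonneg M)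
  rw [← mul_assoc] at h3
  exact h3

/-- the coefficients -/
theorem disc_coef {C : ℝ} (hC0 : 0 ≤ C) (hC : ∀ Y H : ℂ → ℂ, Sg Y H → ∀ r ∈ Ioo (0 : ℝ) 1,
    ∫ x in (0 : ℝ)..(2 * Real.pi), ‖Complex.exp (H (circleMap 0 r x))‖ ≤
      C * (1 - r) ^ (-(397 / 1000) : ℝ)) {f : ℂ → ℂ} {M : ℝ} (hf : DifferentiableOn ℂ f (ball 0 1))
    (hi : InjOn f (ball 0 1)) (h0 : f 0 = 0) (h1 : deriv f 0 = 1)
    (hM : ∀ z ∈ ball (0 : ℂ) 1, ‖f z‖ ≤ M) {a : ℕ → ℂ}
    (ha : ∀ z ∈ ball (0 : ℂ) 1, HasSum (fun n : ℕ => a n * z ^ n) (f z)) {n : ℕ} (hn : 1 ≤ n) :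
    ‖a n‖ ≤ 2 * M ^ 2 * C * (n : ℝ) ^ (-(603 / 1000) : ℝ) := by
  obtain ⟨g, hg⟩ : ∃ g : ℂ → ℂ, g = fun w => w * deriv f w - ((0 : ℕ) : ℂ) * f w := ⟨_, rfl⟩
  have hgd : DifferentiableOn ℂ g (ball 0 1) := by
    rw [hg]
    exact (differentiableOn_id.mul (hf.deriv isOpen_ball)).sub (hf.const_mul _)
  have hgs : ∀ w ∈ ball (0 : ℂ) 1, HasSum (fun j : ℕ => (((j : ℂ) - ((0 : ℕ) : ℂ)) * a j) * w ^ j)
      (g w) := by
    intro w hw
    rw [hg]
    exact Pool.Agent.Helper405.Area.hasSum_Q ha 0 w hw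
  have hge : ∀ w ∈ ball (0 : ℂ) 1, ‖g w‖ ≤ ‖deriv f w‖ := by
    intro w hw
    rw [hg]
    simp only [Nat.cast_zero, zero_mul, sub_zero, norm_mul]
    have h2 : ‖w‖ ≤ 1 := (mem_ball_zero_iff.1 hw).le
    exact mul_le_of_le_one_left (norm_nonneg _) h2
  have key : ∀ r ∈ Ioo (0 : ℝ) 1, (n : ℝ) * ‖a n‖ * r ^ (n + 1) ≤
      (2 * Real.pi)⁻¹ * (M ^ 2 * C * (1 - r) ^ (-(397 / 1000) : ℝ)) := by
    intro r hr
    have h2 := coef_le hgd hgs hr n
    have e1 : ‖((n : ℂ) - ((0 : ℕ) : ℂ)) * a n‖ = n * ‖a n‖ := by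
      rw [Nat.cast_zero, sub_zero, norm_mul, Complex.norm_natCast]
    rw [e1] at h2
    have h3 : (n : ℝ) * ‖a n‖ * r ^ (n + 1) ≤ (n : ℝ) * ‖a n‖ * r ^ n := by
      apply mul_le_mul_of_nonneg_left _ (by positivity)
      exact pow_le_pow_of_le_one hr.1.le hr.2.le (Nat.le_succ n)
    refine h3.trans (h2.trans ?_)
    apply mul_le_mul_of_nonneg_left _ (by positivity)
    refine le_trans ?_ (disc_mean hC hf hi h0 h1 hM hr)
    have c1 : Continuous fun t : ℝ => ‖g (circleMap 0 r t)‖ :=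
      (hgd.continuousOn.comp_continuous (continuous_circleMap 0 r) fun t => circ_mem' hr t).norm
    have hdc : ContinuousOn (deriv f) (ball 0 1) := (hf.deriv isOpen_ball).continuousOn
    have c2 : Continuous fun t : ℝ => ‖deriv f (circleMap 0 r t)‖ :=
      (hdc.comp_continuous (continuous_circleMap 0 r) fun t => circ_mem' hr t).norm
    exact intervalIntegral.integral_mono_on (μ := volume) (by positivity)
      (c1.intervalIntegrable _ _) (c2.intervalIntegrable _ _) fun t _ => hge _ (circ_mem' hr t)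
  have h2 := coef_growth (x := ‖a n‖) hn (norm_nonneg _) (by positivity) (by norm_num)
    (by norm_num) key
  have e3 : (397 / 1000 : ℝ) - 1 = -(603 / 1000) := by norm_num
  rw [e3] at h2
  refine h2.trans (le_of_eq ?_)
  ring

end Pool.Agent.H76.CZ
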