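import Pool.Agent.H76.CZ.Asm
import Pool.Agent.H76.CZ.U2
import Pool.Agent.H76.CZ.LIM3
import Pool.Agent.H76.CZ.INT

set_option autoImplicit false

/-! # The first moment of `ψ'` and the coefficients, exponents `397/1000` and `603/1000` -/

namespace Pool.Agent.H76.CZ

open Complex Metric Set Filter Topology MeasureTheory
open Pool.Agent.W677.Mar Pool.Agent.W5h41.MA Pool.Agent.R250.MC Pool.Agent.H64.CX
open Pool.Agent.H64.BR (cp norm_cp continuous_cp Q_ge)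
open Pool.Agent.H76.CY (coef_le coef_growth one_le_aux)

/-- the mean of `|ψ'|` in disc coordinates -/
theorem mean_exp (cs2 : S_CS2) (phi : S_PHI) : ∃ C : ℝ, 0 ≤ C ∧ ∀ Y H : ℂ → ℂ, Sg Y H → ∀ r ∈ Ioo (0 : ℝ) 1,
    ∫ x in (0 : ℝ)..(2 * Real.pi), ‖Complex.exp (H (circleMap 0 r x))‖ ≤
      C * (1 - r) ^ (-(397 / 1000) : ℝ) := by
  obtain ⟨C, hC0, hC⟩ := bd3 u2 cs2 phi int lim3 (σ := 397 / 1000) (by norm_num) (by norm_num) num397
  refine ⟨C, hC0, fun Y H S r hr => ?_⟩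
  have h1 := hC Y H S r hr
  have hr1 : 0 < 1 - r := by linarith [hr.2]
  rw [Real.rpow_neg hr1.le, ← div_eq_mul_inv, le_div_iff₀ (by positivity)]
  refine le_trans (le_of_eq ?_) h1
  congr 1
  apply intervalIntegral.integral_congr
  intro x _
  show ‖Complex.exp (H (circleMap 0 r x))‖ = ‖Complex.exp (-(-(1 / 2) * H (circleMap 0 r x)))‖ ^ 2
  rw [Complex.norm_exp, Complex.norm_exp, ← Real.exp_nat_mul]
  congr 1
  have e : -(-(1 / 2) * H (circleMap 0 r x)) = ((1 / 2 : ℝ) : ℂ) * H (circleMap 0 r x) := by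
    push_cast
    ring
  rw [e, Complex.re_ofReal_mul]
  push_cast
  ring

/-- exterior maps -/
theorem sigma_mean {C : ℝ} (hC0 : 0 ≤ C) (hC : ∀ Y H : ℂ → ℂ, Sg Y H → ∀ r ∈ Ioo (0 : ℝ) 1,
    ∫ x in (0 : ℝ)..(2 * Real.pi), ‖Complex.exp (H (circleMap 0 r x))‖ ≤
      C * (1 - r) ^ (-(397 / 1000) : ℝ)) {ψ h : ℂ → ℂ} (S : IsSig ψ h) {R : ℝ} (hR : 1 < R) :
    ∫ θ in (0 : ℝ)..(2 * Real.pi), ‖deriv ψ (cp R θ)‖ ≤
      2 * C * (R ^ 2 / (R ^ 2 - 1)) ^ (397 / 1000 : ℝ) := by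
  have hr : R⁻¹ ∈ Ioo (0 : ℝ) 1 := ⟨by positivity, inv_lt_one_of_one_lt₀ hR⟩
  have hr1 : 0 < 1 - R⁻¹ := by linarith [hr.2]
  have h1 := hC _ _ S.sg R⁻¹ hr
  have h2 := circ_int h hR (fun w => ‖Complex.exp w‖)
  have e1 : ∫ θ in (0 : ℝ)..(2 * Real.pi), ‖deriv ψ (cp R θ)‖ =
      ∫ θ in (0 : ℝ)..(2 * Real.pi), ‖Complex.exp (hat h 0 (circleMap 0 R⁻¹ θ))‖ := by
    refine Eq.trans ?_ h2
    apply intervalIntegral.integral_congr
    intro θ _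
    show ‖deriv ψ (cp R θ)‖ = ‖Complex.exp (h ((R : ℂ) * Complex.exp ((θ : ℂ) * Complex.I)))‖
    rw [S.2.2.2.2.1 _ (by
      show 1 < ‖cp R θ‖
      rw [norm_cp (by linarith)]
      exact hR)]
    rfl
  rw [e1]
  refine h1.trans ?_
  have hQ := Q_ge hR
  have hQ0 : 0 < R ^ 2 / (R ^ 2 - 1) := by linarith
  have h3 := one_le_aux hR
  rw [Real.exp_log hQ0] at h3
  have h4 : (1 - R⁻¹) ^ (-(397 / 1000) : ℝ) ≤ 2 * (R ^ 2 / (R ^ 2 - 1)) ^ (397 / 1000 : ℝ) := by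
    have h5 := Real.one_le_rpow h3 (by norm_num : (0 : ℝ) ≤ 397 / 1000)
    rw [Real.mul_rpow hr1.le (by positivity), Real.mul_rpow (by norm_num) hQ0.le] at h5
    have h6 : (2 : ℝ) ^ (397 / 1000 : ℝ) ≤ 2 := by
      calc (2 : ℝ) ^ (397 / 1000 : ℝ) ≤ 2 ^ (1 : ℝ) :=
            Real.rpow_le_rpow_of_exponent_le (by norm_num) (by norm_num)
        _ = 2 := Real.rpow_one 2
    have h7 : 0 < (1 - R⁻¹) ^ (397 / 1000 : ℝ) := Real.rpow_pos_of_pos hr1 _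
    have h8 : 0 < (R ^ 2 / (R ^ 2 - 1)) ^ (397 / 1000 : ℝ) := Real.rpow_pos_of_pos hQ0 _
    rw [Real.rpow_neg hr1.le, inv_le_iff_one_le_mul₀ h7]
    calc 1 ≤ (1 - R⁻¹) ^ (397 / 1000 : ℝ) * (2 ^ (397 / 1000 : ℝ) *
          (R ^ 2 / (R ^ 2 - 1)) ^ (397 / 1000 : ℝ)) := h5
      _ ≤ (1 - R⁻¹) ^ (397 / 1000 : ℝ) * (2 * (R ^ 2 / (R ^ 2 - 1)) ^ (397 / 1000 : ℝ)) := by
          apply mul_le_mul_of_nonneg_left _ h7.le
          exact mul_le_mul_of_nonneg_right h6 h8.le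
      _ = _ := by ring
  calc C * (1 - R⁻¹) ^ (-(397 / 1000) : ℝ) ≤ C * (2 * (R ^ 2 / (R ^ 2 - 1)) ^ (397 / 1000 : ℝ)) :=
        mul_le_mul_of_nonneg_left h4 hC0
    _ = _ := by ring

/-- the coefficients of exterior maps -/
theorem sigma_coef {C : ℝ} (hC0 : 0 ≤ C) (hC : ∀ Y H : ℂ → ℂ, Sg Y H → ∀ r ∈ Ioo (0 : ℝ) 1,
    ∫ x in (0 : ℝ)..(2 * Real.pi), ‖Complex.exp (H (circleMap 0 r x))‖ ≤
      C * (1 - r) ^ (-(397 / 1000) : ℝ)) {ψ h : ℂ → ℂ} (S : IsSig ψ h) {b : ℕ → ℂ}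
    (hb : ∀ z : ℂ, 1 < ‖z‖ → HasSum (fun n : ℕ => b n / z ^ n) (ψ z - z)) {n : ℕ} (hn : 1 ≤ n) :
    ‖b n‖ ≤ 2 * C * (n : ℝ) ^ (-(603 / 1000) : ℝ) := by
  obtain ⟨Y, hY⟩ : ∃ Y, Y = hat (fun z => ψ z / z) 1 := ⟨_, rfl⟩
  have Sg0 := S.sg
  rw [← hY] at Sg0
  obtain ⟨y, hy⟩ : ∃ y : ℕ → ℂ, y = fun j => if j = 0 then 1 else b (j - 1) := ⟨_, rfl⟩
  have hsum : ∀ w ∈ ball (0 : ℂ) 1, HasSum (fun j => y j * w ^ j) (Y w) := by
    intro w hw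
    have hy0 : y 0 = 1 := by rw [hy]; simp
    have hy1 : ∀ j, y (j + 1) = b j := fun j => by rw [hy]; simp
    rcases eq_or_ne w 0 with rfl | hw0
    · have h1 : Y 0 = 1 := by rw [hY, hat_zero]
      rw [h1]
      have h2 := hasSum_single (f := fun j : ℕ => y j * (0 : ℂ) ^ j) 0 (fun j hj => by
        rw [zero_pow hj, mul_zero])
      simpa [hy0] using h2
    · have h1 := hb w⁻¹ (inv_ext hw hw0)
      have h2 := h1.mul_left w
      have h3 := (hasSum_nat_add_iff' (f := fun j : ℕ => y j * w ^ j) (g := Y w) 1).1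
      apply h3
      rw [Finset.sum_range_one, hy0, pow_zero, mul_one]
      have e2 : Y w - 1 = w * (ψ w⁻¹ - w⁻¹) := by
        rw [hY, hat_ne _ _ hw0]
        field_simp
      rw [e2]
      refine h2.congr_fun ?_ |> fun h => h
      intro j
      rw [hy1, inv_pow, div_inv_eq_mul, pow_succ]
      ring
  obtain ⟨g, hg⟩ : ∃ g : ℂ → ℂ, g = fun w => w * deriv Y w - ((1 : ℕ) : ℂ) * Y w := ⟨_, rfl⟩
  have hYd : DifferentiableOn ℂ Y (ball 0 1) := Sg0.G.diff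
  have hgd : DifferentiableOn ℂ g (ball 0 1) := by
    rw [hg]
    exact (differentiableOn_id.mul (hYd.deriv isOpen_ball)).sub (hYd.const_mul _)
  have hgs : ∀ w ∈ ball (0 : ℂ) 1, HasSum (fun j : ℕ => (((j : ℂ) - ((1 : ℕ) : ℂ)) * y j) * w ^ j)
      (g w) := by
    intro w hw
    rw [hg]
    exact Pool.Agent.Helper405.Area.hasSum_Q hsum 1 w hw
  have hge : ∀ w ∈ ball (0 : ℂ) 1, ‖g w‖ = ‖Complex.exp (hat h 0 w)‖ := by
    intro w hw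
    rw [Sg0.eq w hw, hg, ← norm_neg]
    congr 1
    push_cast
    ring
  have key : ∀ r ∈ Ioo (0 : ℝ) 1, (n : ℝ) * ‖b n‖ * r ^ (n + 1) ≤
      (2 * Real.pi)⁻¹ * (C * (1 - r) ^ (-(397 / 1000) : ℝ)) := by
    intro r hr
    have h1 := coef_le hgd hgs hr (n + 1)
    have e1 : ‖(((n + 1 : ℕ) : ℂ) - ((1 : ℕ) : ℂ)) * y (n + 1)‖ = n * ‖b n‖ := by
      have : (((n + 1 : ℕ) : ℂ) - ((1 : ℕ) : ℂ)) = (n : ℂ) := by push_cast; ring
      rw [this, norm_mul, Complex.norm_natCast, hy]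
      simp
    rw [e1] at h1
    refine h1.trans ?_
    apply mul_le_mul_of_nonneg_left _ (by positivity)
    refine le_trans (le_of_eq ?_) (hC _ _ S.sg r hr)
    apply intervalIntegral.integral_congr
    intro θ _
    apply hge
    rw [mem_ball_zero_iff, norm_circleMap_zero, abs_of_pos hr.1]
    exact hr.2
  have h2 := coef_growth (x := ‖b n‖) hn (norm_nonneg _) hC0 (by norm_num) (by norm_num) key
  have e3 : (397 / 1000 : ℝ) - 1 = -(603 / 1000) := by norm_num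
  rwa [e3] at h2

end Pool.Agent.H76.CZ
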