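import Pool.Agent.H64.CX.StmN

set_option autoImplicit false

/-! # CZ: the one-sided identity at `α = -1/2` and an exponent below `2/5` (statements) -/

namespace Pool.Agent.H76.CZ

open Set Filter Topology MeasureTheory
open scoped ENNReal
open Pool.Agent.H64.CX

/-- CZ-ID2 (80 lines): the one-sided identity. Proof. Write `P b = ν (m - b) b`, so `P b = P (m - b)`,
`g i = bt (-α) i`. (1) `∑_{i ≤ n} bt α i * bt (-α) (n - i) = 0` for `n ≥ 1` (induction: telescoping, or the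
library of CX), hence `P b = ∑_{n=b}^m g (n - b) * TP α ν n m`. (2) `TN α ν k m = ∑_b P b * bt α (b + k) =
∑_b P b * bt α (m - b + k) = P 0 * bt α (m + k) + ∑_{b=1}^m bt α (m + k - b) ∑_{n ≥ b} g (n - b) TP n`, and
`P 0 = P m = TP α ν m m`. (3) with `q = m + k - n`: `∑_{i < n} g i * bt α (q + i) =
bt (1 - α) (n - 1) * (q + n) * bt α (q + n) / (q + α)` for `n ≥ 1`, by induction on `n`, because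
`bt (1-α) n = bt (1-α) (n-1) (n-α)/n`, `(q+n+1) bt α (q+n+1) = (q+n+α) bt α (q+n)`,
`g n = -α bt (1-α) (n-1) / n` and `(n-α)(q+n+α) - n(q+n) = -α (q+α)`. -/
def S_ID2 : Prop :=
  ∀ (α : ℂ) (ν : ℕ → ℕ → ℂ), (∀ a b, ν a b = ν b a) → (∀ j : ℤ, α ≠ (j : ℂ)) → ∀ m k : ℕ, 1 ≤ m → 1 ≤ k →
    TN α ν k m = bt α (m + k) * (TP α ν m m + ∑ n ∈ Finset.Icc 1 m,
      ((m : ℂ) + k) * bt (1 - α) (n - 1) / ((m : ℂ) + k - n + α) * TP α ν n m)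

/-- CZ-U2 (70 lines): the coefficients at `α = -1/2`. Proof. `u n = bt (3/2) (n-1)` is real positive,
`u (n+1) = u n (n + 1/2) / n`. `‖u n‖² / n` is increasing (`(n+1/2)² ≥ n (n+1)`), it is `1` for `n = 1` and
tends to `1/Γ(3/2)² = 4/π` (`S_UN`, or Wallis' product), so the first two bounds. And
`bt (-1/2) M = - bt (3/2) (M-1) / (2 M (2 M - 1))` for `M ≥ 1` (induction). -/
def S_U2 : Prop :=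
  (∀ n : ℕ, 1 ≤ n → (n : ℝ) ≤ ‖bt (1 - (-(1 / 2))) (n - 1)‖ ^ 2 ∧
    ‖bt (1 - (-(1 / 2))) (n - 1)‖ ^ 2 ≤ 4 / Real.pi * n) ∧
  ∀ M : ℕ, 1 ≤ M → ‖bt (-(1 / 2)) M‖ ^ 2 * (M : ℝ) ^ 2 ≤
    1 / (4 * Real.pi * M) * ((M : ℝ) / ((M : ℝ) - 1 / 2)) ^ 2

/-- the weighted row -/
noncomputable def WW (σ : ℝ) (m k : ℕ) : ℝ :=
  (k : ℝ) * ((m : ℝ) + k + 1) ^ (-σ) *
    ∑ j ∈ Finset.range m, ((j : ℝ) + 1) ^ (σ - 1) / ((k : ℝ) + j - 1 / 2) ^ 2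

/-- CZ-CS2 (120 lines, from ID2, U2). Proof. `ω n = n (m-n+1)^(1-σ)`,
`V n = (m+k) ‖bt (3/2) (n-1)‖ / (m+k-n-1/2)`. By ID2 and Cauchy's inequality
`‖TN‖² ≤ ‖bt (-1/2) (m+k)‖² (∑ (V n + [n=m])² / ω n) PP`. As `V m ≥ ‖bt (3/2) (m-1)‖ ≥ √m`,
`(V n + [n=m])² ≤ (1 + 1/√m)² (V n)²`; by U2 `(V n)² / ω n ≤ (m+k)² (4/π) (m-n+1)^(σ-1) / (m+k-n-1/2)²`
(put `j = m - n`), `‖bt (-1/2) (m+k)‖² (m+k)² ≤ ...`, and `(m+k+1)^(1-σ) = (m+k+1)^(-σ) (m+k+1)`,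
`(m+k+1)/(m+k) ≤ 1 + 1/m`. The total factor `(1+1/√m)² (1+1/m) (1 - 1/(2m))^(-2)` is at most
`1 + 100/√m`. -/
def S_CS2 : Prop :=
  S_ID2 → S_U2 → ∀ σ : ℝ, 0 < σ → σ < 1 → ∀ ν : ℕ → ℕ → ℂ, (∀ a b, ν a b = ν b a) →
    ∀ m k : ℕ, 1 ≤ m → 1 ≤ k →
      (k : ℝ) * ((m : ℝ) + k + 1) ^ (-(σ - 1)) * ‖TN (-(1 / 2)) ν k m‖ ^ 2 ≤
        (1 + 100 / Real.sqrt m) * (1 / Real.pi ^ 2) * WW σ m k * PP (-(1 / 2)) ν (σ - 1) m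

/-- CZ-PHI (120 lines). Proof. Tonelli; for fixed `t`: `(1+x)^(-σ)/(x+t) =
(1+x)^(-σ-1) + (1-t) (1+x)^(-σ-1)/(x+t)` and `(1+x)^(-1-σ) ≤ (1-σ)/(1+x) + σ/(1+x)²` (weighted AM-GM), and
the majorant has the primitive `-(1+x)^(-σ)/σ + (1-σ) log((x+t)/(1+x)) + σ (log((x+t)/(1+x))/(1-t) +
1/(1+x))`. So the inner integral is `≤ 1/σ - σ - (1-σ) log t - σ log t/(1-t) ≤ 1/σ - σ - log t + σ √t`
(`-t log t ≤ (1-t) √t`, i.e. `log (1/t) ≤ (1-t)/√t`), and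
`∫_0^1 t^(σ-1) (1/σ - σ - log t + σ √t) dt = 2/σ² - 1 + σ/(σ+1/2)`. -/
def S_PHI : Prop :=
  ∀ σ : ℝ, 0 < σ → σ < 1 →
    ∫⁻ x in Ioi (0 : ℝ), ∫⁻ t in Ioo (0 : ℝ) 1,
        ENNReal.ofReal ((1 + x) ^ (-σ) * t ^ (σ - 1) / (x + t)) ≤
      ENNReal.ofReal (2 / σ ^ 2 - 1 + σ / (σ + 1 / 2))

/-- the limit integral -/
noncomputable def II (σ : ℝ) : ℝ≥0∞ :=
  ∫⁻ x in Ioi (0 : ℝ), ∫⁻ t in Ioo (0 : ℝ) 1,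
    ENNReal.ofReal (x * (1 + x) ^ (-σ) * t ^ (σ - 1) / (x + t) ^ 2)

/-- CZ-INT (80 lines, from PHI). Proof. For fixed `x > 0`: `x t^(σ-1)/(x+t)² =
(1-σ) t^(σ-1)/(x+t) + d/dt (t^σ/(x+t))`, so `∫_0^1 x t^(σ-1)/(x+t)² dt =
1/(1+x) + (1-σ) ∫_0^1 t^(σ-1)/(x+t) dt`; multiply by `(1+x)^(-σ)`, `∫_0^∞ (1+x)^(-σ-1) dx = 1/σ`. -/
def S_INT : Prop :=
  S_PHI → ∀ σ : ℝ, 0 < σ → σ < 1 →
    II σ ≤ ENNReal.ofReal (1 / σ + (1 - σ) * (2 / σ ^ 2 - 1 + σ / (σ + 1 / 2)))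

/-- CZ-LIM3 (150 lines, from PHI). Proof. As `CX/LIM2` (use `lim2_step`, `lim2_step01`, `lim2_meas` of
`Pool/Agent/H64/CX/LIM2a.lean`): the sum is `∫∫ f_m`, `f_m(x,t) = m² (k+1) (m+k+2)^(-σ) (j+1)^(σ-1) /
(k+j+1/2)²`, `k = ⌊m x⌋`, `j = ⌊m t⌋`. Pointwise limit: the integrand of `II`. Domination: `k+1 ≥ m x`,
`j+1 ≥ m t`, `k+j+1/2 ≥ (k+j+2)/4`, so `f_m ≤ 16 (1+x)^(-σ) t^(σ-1)/(x+t)`, which has a finite integral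
by PHI. -/
def S_LIM3 : Prop :=
  S_PHI → ∀ σ : ℝ, 0 < σ → σ < 1 →
    Tendsto (fun m : ℕ => ∑' k : ℕ, ENNReal.ofReal (WW σ m (k + 1))) atTop (𝓝 (II σ))

end Pool.Agent.H76.CZ
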